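import Pool.Agent.H364_Fill.Main
import Pool.Agent.H364_Fill.Phi

open MeasureTheory MvPolynomial
open scoped ENNReal NNReal Topology

namespace Pool.Agent.H364Fill

open Pool.Agent.TH630

variable {n m : ℕ}

theorem exists_Bd {G : NilLaw (m + 1)} {ρ : ℝ} (D : Gau G ρ)
    (Q : MvPolynomial (Fin (m + 1 + 1) × Fin (m + 1)) ℝ) {K : ℝ} (hρ : 0 < ρ)
    (hK : ∀ x : Fin (m + 1) → ℝ, D.Nr x ≤ 4 * ρ → G.nrm x < K * ρ) :
    ∃ Bd : ℝ, 0 ≤ Bd ∧
      (∀ k ∈ Q.support, ∀ i j, |dfv (0 : Fin (m + 1) → ℝ) (Pi.single j 1)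
        (mono k (Fin.succ i))| ≤ Bd) ∧
      (∀ k ∈ Q.support, ∀ i, ∀ y : Fin (m + 1) → ℝ, D.Nr y ≤ 2 * ρ →
        |eval y (mono k (Fin.succ i))| ≤ Bd) := by
  have h1 : ∀ (k : Fin (m + 1 + 1) × Fin (m + 1) →₀ ℕ) (i : Fin (m + 1)), ∃ b : ℝ, 0 ≤ b ∧
      ∀ y : Fin (m + 1) → ℝ, D.Nr y ≤ 2 * ρ → |eval y (mono k (Fin.succ i))| ≤ b := by
    intro k i
    obtain ⟨b, hb⟩ := (isCompact_nball (G := G) (K * ρ)).exists_bound_of_continuousOn
      (f := fun y => eval y (mono k (Fin.succ i))) (differentiable_eval _).continuous.continuousOn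
    refine ⟨|b|, abs_nonneg b, fun y hy => ?_⟩
    have h2 : G.nrm y ≤ K * ρ := (hK y (by linarith)).le
    exact (hb y h2).trans (le_abs_self b)
  choose b hb0 hb using h1
  set B1 : ℝ := ∑ k ∈ Q.support, ∑ i, b k i with hB1
  set B2 : ℝ := ∑ k ∈ Q.support, ∑ i : Fin (m + 1), ∑ j : Fin (m + 1),
    |dfv (0 : Fin (m + 1) → ℝ) (Pi.single j 1) (mono k (Fin.succ i))| with hB2
  have hB10 : 0 ≤ B1 := Finset.sum_nonneg fun k _ => Finset.sum_nonneg fun i _ => hb0 k i
  have hB20 : 0 ≤ B2 := Finset.sum_nonneg fun k _ => Finset.sum_nonneg fun i _ =>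
    Finset.sum_nonneg fun j _ => abs_nonneg _
  refine ⟨B1 + B2, by positivity, fun k hk i j => ?_, fun k hk i y hy => ?_⟩
  · have e1 : |dfv (0 : Fin (m + 1) → ℝ) (Pi.single j 1) (mono k (Fin.succ i))| ≤
        ∑ j : Fin (m + 1), |dfv (0 : Fin (m + 1) → ℝ) (Pi.single j 1) (mono k (Fin.succ i))| :=
      Finset.single_le_sum (f := fun j : Fin (m + 1) =>
        |dfv (0 : Fin (m + 1) → ℝ) (Pi.single j 1) (mono k (Fin.succ i))|)
        (fun _ _ => abs_nonneg _) (Finset.mem_univ j)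
    have e2 := Finset.single_le_sum (f := fun i : Fin (m + 1) => ∑ j : Fin (m + 1),
        |dfv (0 : Fin (m + 1) → ℝ) (Pi.single j 1) (mono k (Fin.succ i))|)
        (fun _ _ => Finset.sum_nonneg fun _ _ => abs_nonneg _) (Finset.mem_univ i)
    have e3 := Finset.single_le_sum (f := fun k => ∑ i : Fin (m + 1), ∑ j : Fin (m + 1),
        |dfv (0 : Fin (m + 1) → ℝ) (Pi.single j 1) (mono k (Fin.succ i))|)
        (fun _ _ => Finset.sum_nonneg fun _ _ => Finset.sum_nonneg fun _ _ => abs_nonneg _) hk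
    linarith
  · have e1 := hb k i y hy
    have e2 := Finset.single_le_sum (f := fun i : Fin (m + 1) => b k i)
        (fun _ _ => hb0 _ _) (Finset.mem_univ i)
    have e3 := Finset.single_le_sum (f := fun k => ∑ i : Fin (m + 1), b k i)
        (fun _ _ => Finset.sum_nonneg fun _ _ => hb0 _ _) hk
    linarith

theorem main_ineq {G : NilLaw (m + 1)} {ρ : ℝ} (D : Gau G ρ)
    {Q : MvPolynomial (Fin (m + 1 + 1) × Fin (m + 1)) ℝ} (hQ : IsVolPoly G Q)
    {N K A C C2 : ℝ} (hρ : 0 < ρ) (hN : 0 ≤ N)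
    (hK : ∀ x : Fin (m + 1) → ℝ, D.Nr x ≤ 4 * ρ → G.nrm x < K * ρ) (hC2 : FrameBound G C2)
    (F : (Fin (m + 2) → Fin (m + 1) → ℝ) → ℝ) (h : (Fin (m + 1) → Fin (m + 1) → ℝ) → ℝ)
    (hA : 0 ≤ A) (hC : 0 ≤ C)
    (hF : ∀ g, G.near (K * ρ) g → |F g| ≤ A)
    (hh : ∀ g, G.near (K * ρ) g → |h g| ≤ C)
    (hFh : ∀ g, G.near (K * ρ) g → F g - sgnVol (G.barSimplex g) =
      ∑ i : Fin (m + 2), (-1 : ℝ) ^ (i : ℕ) * h (fun j => g (i.succAbove j)))
    {w : Fin (m + 1) → ℕ} {C4 : ℝ} (hC4 : WFrame D w C4) {c0 : ℝ}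
    (hc0 : c0 = (m + 1).factorial * (volume (corner (m + 1))).toReal)
    (hsmall : N ^ (m + 2) * (A * (C3 m C4 N / ρ ^ (∑ j, w j))) ≤ c0 / 2) :
    ∃ Cc : ℝ, 0 < Cc ∧ ∀ (R : ℝ) (ι : Type) (_ : Fintype ι) (_ : Pou D R N ι),
      (Cc + c0 / 2) * G.vg R ≤ Cc * G.vg (R + 2) := by
  have hQc := hQ.cocycle
  have hc0' : 0 ≤ c0 := by rw [hc0]; positivity
  obtain ⟨Bd, hBd, hB1, hB2⟩ := exists_Bd D Q hρ hK
  have hC20 := hC2.1
  set M1 : ℝ := (∑ k ∈ Q.support, |Q.coeff k| * |eval (0 : Fin (m + 1) → ℝ) (mono k 0)|) *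
        ((m + 1).factorial * (Bd + C2 * (N * Bd + Bd) + N * (C2 * ((1 + 2 * N) / ρ) * Bd)) ^
          (m + 1)) with hM1
  set M2 : ℝ := N ^ (m + 1) * (C * ((m + 1).factorial *
    (C2 * ((1 + 2 * N) / ρ) + C2) ^ (m + 1))) with hM2
  have hM10 : 0 ≤ M1 := by positivity
  have hM20 : 0 ≤ M2 := by positivity
  refine ⟨M1 + c0 + M2 + 1, by positivity, fun R ι _ P => ?_⟩
  set Cc := M1 + c0 + M2 + 1 with hCc
  have hCc0 : 0 < Cc := by positivity
  set S : Set (Fin (m + 1) → ℝ) := {x | G.nrm x ≤ R + 1} with hS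
  have hScomp : IsCompact S := isCompact_nball (R + 1)
  have hI1 := fun k : Fin (m + 1 + 1) × Fin (m + 1) →₀ ℕ => integral_det_fderiv_sub
    (Nat.succ_pos m) (LL_ff P hρ hN k) (LL_gg k) hScomp (ff_eq_gg P k)
  have hI2 := fun f : Fin (m + 1) → ι => integral_det_fderiv_sub
    (Nat.succ_pos m) (LL_uf P hρ hN f) (LL_vf P hρ hN f) hScomp (uf_eq_vf P f)
  set Ψ1 : (Fin (m + 1) → ℝ) → ℝ := fun x => ∑ k ∈ Q.support, Q.coeff k *
    (eval (0 : Fin (m + 1) → ℝ) (mono k 0) *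
      ((fderiv ℝ (ff P k) x).det - (fderiv ℝ (gg k) x).det)) with hΨ1
  set Ψ2 : (Fin (m + 1) → ℝ) → ℝ := fun x => ∑ f : Fin (m + 1) → ι,
    h (fun i => P.pt (f i)) * ((fderiv ℝ (uf P f) x).det - (fderiv ℝ (vf P f) x).det) with hΨ2
  have hint1 : Integrable Ψ1 := integrable_finsetSum _ fun k _ =>
    (((hI1 k).1.const_mul _).const_mul _)
  have hint2 : Integrable Ψ2 := integrable_finsetSum _ fun f _ => ((hI2 f).1.const_mul _)
  have hz1 : ∫ x, Ψ1 x = 0 := by
    rw [hΨ1, integral_finsetSum _ fun k _ => (((hI1 k).1.const_mul _).const_mul _)]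
    apply Finset.sum_eq_zero
    intro k _
    rw [integral_const_mul, integral_const_mul, (hI1 k).2]
    ring
  have hz2 : ∫ x, Ψ2 x = 0 := by
    rw [hΨ2, integral_finsetSum _ fun f _ => ((hI2 f).1.const_mul _)]
    apply Finset.sum_eq_zero
    intro f _
    rw [integral_const_mul, (hI2 f).2]
    ring
  have hz : ∫ x, (Ψ1 x + Ψ2 x) = 0 := by rw [integral_add hint1 hint2, hz1, hz2, add_zero]
  set B0 : Set (Fin (m + 1) → ℝ) := {x | G.nrm x < R} with hB0
  set B2' : Set (Fin (m + 1) → ℝ) := {x | G.nrm x < R + 2} with hB2'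
  have hB0m : MeasurableSet B0 := (G.isOpen_nball R).measurableSet
  have hB2m : MeasurableSet B2' := (G.isOpen_nball (R + 2)).measurableSet
  set bd : (Fin (m + 1) → ℝ) → ℝ := fun x =>
    B2'.indicator (fun _ => Cc) x - B0.indicator (fun _ => Cc + c0 / 2) x with hbd
  have hbdi1 : Integrable (B2'.indicator fun _ => Cc) (volume : Measure (Fin (m + 1) → ℝ)) :=
    (integrable_indicator_iff hB2m).2 (integrableOn_const (G.volume_nball_lt_top _).ne)
  have hbdi2 : Integrable (B0.indicator fun _ => Cc + c0 / 2)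
      (volume : Measure (Fin (m + 1) → ℝ)) :=
    (integrable_indicator_iff hB0m).2 (integrableOn_const (G.volume_nball_lt_top _).ne)
  have hbdint : ∫ x, bd x = Cc * G.vg (R + 2) - (Cc + c0 / 2) * G.vg R := by
    rw [hbd, integral_sub hbdi1 hbdi2, integral_indicator hB2m, integral_indicator hB0m,
      setIntegral_const, setIntegral_const, smul_eq_mul, smul_eq_mul]
    rw [NilLaw.vg, NilLaw.vg, Measure.real, Measure.real]
    ring
  have hle : ∀ᵐ x ∂(volume : Measure (Fin (m + 1) → ℝ)), Ψ1 x + Ψ2 x ≤ bd x := by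
    filter_upwards [ae_good P hρ hN] with x hx
    have e1 : Ψ1 x = kap Q (ev 0) (fun j => Lf P x (Pi.single j 1)) - c0 := by
      rw [hΨ1]
      simp only
      rw [sum_det_ff P Q hx, kap_dfv hQ hQc, hc0]
    have e2 : Ψ2 x = ∑ f : Fin (m + 1) → ι, h (fun i => P.pt (f i)) *
        (fderiv ℝ (uf P f) x).det := by
      rw [hΨ2]
      refine Finset.sum_congr rfl fun f _ => ?_
      rw [det_vf P hx, sub_zero]
    rcases lt_or_ge (G.nrm x) R with hR | hR
    · -- inner region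
      have hR2 : G.nrm x < R + 2 := by linarith
      have hx0 : x ∈ B0 := hR
      have hx2 : x ∈ B2' := hR2
      have e3 : bd x = -(c0 / 2) := by
        rw [hbd]
        simp only [Set.indicator_of_mem hx0, Set.indicator_of_mem hx2]
        ring
      have e4 : Ψ2 x = ∑ f : Fin (m + 1) → ι, h (fun i => P.pt (f i)) * dt P x f := by
        rw [e2]
        refine Finset.sum_congr rfl fun f _ => ?_
        rw [det_uf_inner P hx f hR]
      have e5 := sum_coboundary P hx hR2 (fun f => h (fun i => P.pt (f i)))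
      have e6 : Ψ1 x + Ψ2 x = (∑ f : Fin (m + 2) → ι, wt P x f * F (fun i => P.pt (f i))) - c0 := by
        rw [e1, kap_inner P hQc hx hR, e4, ← e5]
        have e7 : ∑ f : Fin (m + 2) → ι, wt P x f * eval (fun p => P.pt (f p.1) p.2) Q +
            ∑ f : Fin (m + 2) → ι, wt P x f * (∑ i : Fin (m + 2), (-1 : ℝ) ^ (i : ℕ) *
              h (fun j => P.pt (f (i.succAbove j)))) =
            ∑ f : Fin (m + 2) → ι, wt P x f * F (fun i => P.pt (f i)) := by
          rw [← Finset.sum_add_distrib]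
          refine Finset.sum_congr rfl fun f _ => ?_
          by_cases hw : wt P x f = 0
          · rw [hw]
            ring
          · have h1 := near_of_active P hρ hK f x (wt_ne_zero P hw)
            have h2 := hFh _ h1
            have h3 := hQ (fun i => P.pt (f i))
            rw [← h2, h3]
            ring
        rw [← e7]
        ring
      have e8 := kapF_le P hC4 hρ hN hK F hA hF hx
      have e9 := le_abs_self (∑ f : Fin (m + 2) → ι, wt P x f * F (fun i => P.pt (f i)))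
      rw [e6, e3]
      linarith
    · have hx0 : x ∉ B0 := not_lt.2 hR
      rcases lt_or_ge (G.nrm x) (R + 2) with hR2 | hR2
      · have hx2 : x ∈ B2' := hR2
        have e3 : bd x = Cc := by
          rw [hbd]
          simp only [Set.indicator_of_notMem hx0, Set.indicator_of_mem hx2]
          ring
        have e4 : |kap Q (ev 0) (fun j => Lf P x (Pi.single j 1))| ≤ M1 := by
          rw [kap_Lf P hQ hQc hx hR2]
          exact kap_bound P Q hρ hN hC2 Bd hBd hB1 hB2 hx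
        have e5 : |Ψ2 x| ≤ M2 := by
          rw [e2]
          refine abs_sum_le P (x := x) _ (by positivity)
            (fun f hf => det_uf_ne_zero P hx (right_ne_zero_of_mul hf)) (fun f hf => ?_)
          rw [abs_mul]
          have h1 := hh _ (near_of_active P hρ hK f x
            (det_uf_ne_zero P hx (right_ne_zero_of_mul hf)))
          have h2 := abs_det_uf_le P hC2 hρ hN hx f
          gcongr
        rw [e3, e1]
        have e6 := le_abs_self (kap Q (ev 0) (fun j => Lf P x (Pi.single j 1)))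
        have e7 := le_abs_self (Ψ2 x)
        linarith
      · have hx2 : x ∉ B2' := not_lt.2 hR2
        have e3 : bd x = 0 := by
          rw [hbd]
          simp only [Set.indicator_of_notMem hx0, Set.indicator_of_notMem hx2]
          ring
        have hR1 : R + 1 < G.nrm x := by linarith
        have e4 : Ψ2 x = 0 := by
          rw [e2]
          apply Finset.sum_eq_zero
          intro f _
          rw [det_uf_outer P hx f hR1, mul_zero]
        have e5 : Ψ1 x = 0 := by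
          rw [e1, hc0, ← kap_dfv hQ hQc x]
          have h1 : ∀ v, Lf P x v = dfv x v := by
            intro v
            rw [Lf, fderiv_cut_outer hR1, G.cut_eq_zero hR1.le]
            simp
          simp only [h1]
          ring
        rw [e3, e4, e5, add_zero]
  have hfin := integral_mono_ae (hint1.add hint2) (hbdi1.sub hbdi2) hle
  have h1 : ∫ x, (Ψ1 + Ψ2) x = 0 := hz
  have h2 : ∫ x, ((B2'.indicator fun _ => Cc) - B0.indicator fun _ => Cc + c0 / 2) x =
      Cc * G.vg (R + 2) - (Cc + c0 / 2) * G.vg R := hbdint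
  rw [h1, h2] at hfin
  linarith

theorem vg_mono' (G : NilLaw n) {r s : ℝ} (h : r ≤ s) : G.vg r ≤ G.vg s := by
  apply ENNReal.toReal_mono (G.volume_nball_lt_top s).ne
  apply measure_mono
  intro x hx
  exact lt_of_lt_of_le hx h

/-- The product of the filling exponents is at least the sum of the weights of a family of
gauges. -/
theorem main_gauge (G : NilLaw (m + 1)) (B : Matrix (Fin (m + 1)) (Fin (m + 1)) ℝ)
    (hB : B.PosDef) {α : ℕ → ℝ} (hα : ∀ j, j + 2 ≤ m + 1 → 1 ≤ α (j + 1))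
    (hFV : ∀ j, j + 2 ≤ m + 1 → FVle G B (j + 1) (α (j + 1)))
    (w : Fin (m + 1) → ℕ) (C4 K3 K4 : ℝ) (hK40 : 0 < K4)
    (hD : ∀ ρ : ℝ, 1 ≤ ρ → ∃ D : Gau G ρ, WFrame D w C4 ∧
      (∀ x, D.Nr x ≤ 3 * ρ → G.nrm x < K3 * ρ) ∧ (∀ x, D.Nr x ≤ 4 * ρ → G.nrm x < K4 * ρ)) :
    ((∑ j, w j : ℕ) : ℝ) ≤ Ex α (m + 1) := by
  by_contra hcon
  push Not at hcon
  obtain ⟨Q, hQ⟩ := exists_barPoly G
  have hQ' : IsVolPoly G Q := hQ
  obtain ⟨C2, hC2⟩ := G.exists_frame_bound
  have hC2' : FrameBound G C2 := hC2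
  obtain ⟨Cg, d, hpoly⟩ := G.vg_poly
  obtain ⟨N, hN, hdoub⟩ := exists_doubling G.vg G.vg_pos Cg d hpoly (max 1 (2 * K3))
    (le_max_left _ _)
  obtain ⟨A, hA, hcoch⟩ := exists_cochainsE G B hB hα hFV K4 hK40.le
  set c0 : ℝ := (m + 1).factorial * (volume (corner (m + 1))).toReal with hc0
  have hc0pos : 0 < c0 := by
    have h1 : 0 < (volume (corner (m + 1))).toReal :=
      ENNReal.toReal_pos (volume_corner_pos _).ne' (volume_corner_lt_top _).ne
    positivity
  set E : ℝ := Ex α (m + 1) with hE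
  set q : ℕ := ∑ j, w j with hq
  obtain ⟨ρ0, hρ0⟩ : ∃ ρ0 : ℝ, ∀ ρ : ℝ, ρ0 ≤ ρ → 1 ≤ ρ →
      N ^ (m + 2) * (A * ρ ^ E * (C3 m C4 N / ρ ^ q)) ≤ c0 / 2 := by
    have hlim : Filter.Tendsto (fun ρ : ℝ => N ^ (m + 2) * (A * C3 m C4 N) * ρ ^ (-((q : ℝ) - E)))
        Filter.atTop (𝓝 (N ^ (m + 2) * (A * C3 m C4 N) * 0)) :=
      (tendsto_rpow_neg_atTop (sub_pos.2 hcon)).const_mul _
    rw [mul_zero] at hlim
    have hev := hlim.eventually (gt_mem_nhds (show 0 < c0 / 2 by positivity))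
    obtain ⟨ρ0, h⟩ := Filter.eventually_atTop.1 hev
    refine ⟨ρ0, fun ρ h1 h2 => le_trans (le_of_eq ?_) (h ρ h1).le⟩
    have hρp : 0 < ρ := by linarith
    rw [neg_sub, Real.rpow_sub hρp, Real.rpow_natCast]
    ring
  obtain ⟨r, hr, hr2⟩ := hdoub (max 1 ρ0)
  have hr1 : 1 ≤ r := (le_max_left _ _).trans hr
  have hrC : ρ0 ≤ r := (le_max_right _ _).trans hr
  set ρ : ℝ := 2 * r with hρdef
  have hρ1 : 1 ≤ ρ := by linarith
  have hρ00 : 0 < ρ := by linarith
  have hρC := hρ0 ρ (by linarith) hρ1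
  have hdbl : G.vg (K3 * ρ) ≤ N * G.vg (ρ / 2) := by
    have h1 : ρ / 2 = r := by rw [hρdef]; ring
    rw [h1]
    refine le_trans (vg_mono' G ?_) hr2
    have h2 : 2 * K3 ≤ max 1 (2 * K3) := le_max_right _ _
    rw [hρdef]
    nlinarith
  obtain ⟨C, hC, F, h, hF, hh, hFh⟩ := hcoch ρ hρ1
  obtain ⟨D, hW, hK3, hK4⟩ := hD ρ hρ1
  obtain ⟨Cc, hCc, hmain⟩ := main_ineq D hQ' hρ00 hN.le hK4 hC2' F h
    (by positivity) hC.le hF hh hFh hW hc0 hρC
  obtain ⟨R, hR, hslow⟩ := exists_slow G.vg G.vg_pos Cg d hpoly (c0 / (4 * Cc)) (by positivity) 1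
  obtain ⟨ι, hι, ⟨P⟩⟩ := exists_Pou D hρ1 hN hK3 hdbl R
  have h1 := hmain R ι hι P
  have h2 : 0 < G.vg R := G.vg_pos R (by linarith)
  have h3 : Cc * G.vg (R + 2) ≤ Cc * ((1 + c0 / (4 * Cc)) * G.vg R) := by gcongr
  have h4 : Cc * ((1 + c0 / (4 * Cc)) * G.vg R) = (Cc + c0 / 4) * G.vg R := by
    field_simp
  rw [h4] at h3
  have h5 := h1.trans h3
  have h6 : Cc + c0 / 2 ≤ Cc + c0 / 4 := le_of_mul_le_mul_right h5 h2
  linarith

end Pool.Agent.H364Fill
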