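import Pool.Agent.H364_Fill.Gen
import Pool.Agent.H364_Fill.Final

/-!
# The gauges of a stratified group and the inequality for the filling exponents
-/

open scoped ENNReal NNReal Topology

namespace Pool.Agent.H364Fill

open Pool.Agent.TH630

variable {n : ℕ}

theorem nrm_le_lin (G : NilLaw n) : ∃ C : ℝ, 0 < C ∧ ∀ y : Fin n → ℝ, ‖y‖ ≤ 1 →
    G.nrm y ≤ C * ‖y‖ := by
  obtain ⟨δ, hδ, C, hC, h⟩ := nrm_le_small G
  obtain ⟨C1, hC1⟩ := nrm_bounded G 1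
  have hC10 : 0 ≤ C1 := (nrm_nonneg G 0).trans (hC1 0 (by simp))
  refine ⟨C + C1 / δ, by positivity, fun y hy => ?_⟩
  rcases le_or_gt ‖y‖ δ with h1 | h1
  · refine (h y h1).trans ?_
    have : 0 ≤ C1 / δ * ‖y‖ := by positivity
    nlinarith
  · refine (hC1 y hy).trans ?_
    have h2 : C1 ≤ C1 / δ * ‖y‖ := by
      rw [div_mul_eq_mul_div, le_div_iff₀ hδ]
      gcongr
    have : 0 ≤ C * ‖y‖ := by positivity
    nlinarith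

variable {G : NilLaw n} (S : Stratified G)

theorem mem_ge_one (x : Fin n → ℝ) : x ∈ ge S.w 1 := fun j hj => absurd (S.w_pos j) (by omega)

theorem dil_word {C : ℝ} (hC : 0 < C) (h : ∀ y : Fin n → ℝ, ‖y‖ ≤ 1 → G.nrm y ≤ C * ‖y‖)
    {ρ : ℝ} (hρ : 1 ≤ ρ) (l : List (Fin n → ℝ)) (hl : ∀ s ∈ l, ‖s‖ ≤ 1 ∧ ‖G.inv s‖ ≤ 1) :
    ρ * G.nrm (dil S.w ρ⁻¹ (l.foldr G.mul 0)) ≤ C * (l.map G.cost).sum := by
  have hρ0 : 0 < ρ := by linarith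
  induction l with
  | nil => simp [dil_zero, nrm_zero]
  | cons s l ih =>
    have h1 := ih (fun s hs => hl s (List.mem_cons_of_mem _ hs))
    have hs := (hl s List.mem_cons_self).1
    rw [List.foldr_cons, List.map_cons, List.sum_cons, ← S.dil_mul ρ⁻¹ (inv_pos.2 hρ0)]
    have h2 := nrm_mul_le G (dil S.w ρ⁻¹ s) (dil S.w ρ⁻¹ (l.foldr G.mul 0))
    have h3 := norm_dil_le (mem_ge_one S s) (inv_nonneg.2 hρ0.le) (inv_le_one_of_one_le₀ hρ)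
    rw [pow_one] at h3
    have h4 : ‖dil S.w ρ⁻¹ s‖ ≤ 1 :=
      (norm_dil_le_norm s (inv_nonneg.2 hρ0.le) (inv_le_one_of_one_le₀ hρ)).trans hs
    have h5 := h _ h4
    have h6 : ρ * G.nrm (dil S.w ρ⁻¹ s) ≤ C * ‖s‖ := by
      calc ρ * G.nrm (dil S.w ρ⁻¹ s) ≤ ρ * (C * (ρ⁻¹ * ‖s‖)) := by
            have := h5.trans (mul_le_mul_of_nonneg_left h3 hC.le)
            gcongr
        _ = C * ‖s‖ := by field_simp
    have h7 : C * ‖s‖ ≤ C * G.cost s := by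
      rw [NilLaw.cost]
      have := norm_nonneg (G.inv s)
      nlinarith
    nlinarith

theorem dil_nrm_le {C : ℝ} (hC : 0 < C) (h : ∀ y : Fin n → ℝ, ‖y‖ ≤ 1 → G.nrm y ≤ C * ‖y‖)
    {ρ : ℝ} (hρ : 1 ≤ ρ) (x : Fin n → ℝ) :
    C⁻¹ * (ρ * G.nrm (dil S.w ρ⁻¹ x)) ≤ G.nrm x := by
  rw [NilLaw.nrm.eq_def G x]
  apply le_csInf (costs_nonempty G x)
  rintro c ⟨l, hl, hx, rfl⟩
  have h1 := dil_word S hC h hρ l hl
  rw [hx] at h1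
  rw [inv_mul_le_iff₀ hC]
  exact h1

/-- The gauge at scale `ρ`. -/
noncomputable def gau {C : ℝ} (hC : 0 < C)
    (h : ∀ y : Fin n → ℝ, ‖y‖ ≤ 1 → G.nrm y ≤ C * ‖y‖) {ρ : ℝ} (hρ : 1 ≤ ρ) : Gau G ρ where
  Nr x := C⁻¹ * (ρ * G.nrm (dil S.w ρ⁻¹ x))
  nonneg' x := by
    have := nrm_nonneg G (dil S.w ρ⁻¹ x)
    positivity
  le_nrm' x := dil_nrm_le S hC h hρ x
  mul_le' x y := by
    rw [← S.dil_mul ρ⁻¹ (by positivity)]
    have := nrm_mul_le G (dil S.w ρ⁻¹ x) (dil S.w ρ⁻¹ y)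
    rw [← mul_add, ← mul_add]
    gcongr
  inv' x := by rw [dil_inv S (by positivity), nrm_inv]

theorem nrm_lt_of_gau {C : ℝ} (hC : 0 < C)
    (h : ∀ y : Fin n → ℝ, ‖y‖ ≤ 1 → G.nrm y ≤ C * ‖y‖) (c : ℝ) (hc : 0 ≤ c) :
    ∃ K : ℝ, 0 < K ∧ ∀ (ρ : ℝ) (hρ : 1 ≤ ρ) (x : Fin n → ℝ),
      (gau S hC h hρ).Nr x ≤ c * ρ → G.nrm x < K * ρ := by
  obtain ⟨C1, hC1, D, hgr⟩ := nrm_growth G
  obtain ⟨K, hK, hb⟩ := exists_ball_bound S (C1 * (1 + C * c) ^ D)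
  refine ⟨K + 1, by positivity, fun ρ hρ x hx => ?_⟩
  have hρ0 : 0 < ρ := by linarith
  have h1 : G.nrm (dil S.w ρ⁻¹ x) ≤ C * c := by
    have h2 : C⁻¹ * (ρ * G.nrm (dil S.w ρ⁻¹ x)) ≤ c * ρ := hx
    rw [inv_mul_le_iff₀ hC] at h2
    have h3 : ρ * G.nrm (dil S.w ρ⁻¹ x) ≤ ρ * (C * c) := by linarith
    exact le_of_mul_le_mul_left h3 hρ0
  have h2 : ‖dil S.w ρ⁻¹ x‖ ≤ C1 * (1 + C * c) ^ D := by
    refine (hgr _).trans ?_
    have := nrm_nonneg G (dil S.w ρ⁻¹ x)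
    gcongr
  have h3 := hb _ h2 ρ hρ
  rw [dil_dil, mul_inv_cancel₀ hρ0.ne', dil_one] at h3
  linarith

theorem gau_frame {m : ℕ} {G : NilLaw (m + 1)} (S : Stratified G) {C : ℝ} (hC : 0 < C)
    (h : ∀ y : Fin (m + 1) → ℝ, ‖y‖ ≤ 1 → G.nrm y ≤ C * ‖y‖) {ρ : ℝ} (hρ : 1 ≤ ρ) :
    WFrame (gau S hC h hρ) S.w 1 := by
  have hρ0 : 0 < ρ := by linarith
  refine ⟨one_pos, fun x u hu L hL hlip j => ?_⟩
  rw [one_mul]
  refine G.abs_fderiv_le x u hu (fun s : ℝ => s • Pi.single j 1) (Pi.single j 1) (by simp)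
    (by simpa using (hasDerivAt_id' (0 : ℝ)).smul_const (Pi.single j 1 : Fin (m + 1) → ℝ))
    _ (by positivity) ?_
  have hev : ∀ᶠ s : ℝ in 𝓝 0, |s| < ρ ^ (S.w j) := by
    have h1 : Filter.Tendsto (fun s : ℝ => |s|) (𝓝 0) (𝓝 0) := by
      simpa using (continuous_abs.tendsto (0 : ℝ))
    exact h1.eventually (gt_mem_nhds (pow_pos hρ0 _))
  filter_upwards [hev] with s hs
  refine (hlip _).trans ?_
  have h1 : dil S.w ρ⁻¹ (s • Pi.single j 1 : Fin (m + 1) → ℝ) =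
      ((ρ ^ (S.w j))⁻¹ * s) • Pi.single j 1 := by
    funext i
    by_cases hij : i = j
    · subst hij
      simp [dil, inv_pow]
    · simp [dil, Pi.single_eq_of_ne hij]
  have h2 : ‖dil S.w ρ⁻¹ (s • Pi.single j 1 : Fin (m + 1) → ℝ)‖ = |s| / ρ ^ (S.w j) := by
    rw [h1, norm_smul, Pi.norm_single, norm_one, mul_one, Real.norm_eq_abs, abs_mul,
      abs_inv, abs_of_pos (pow_pos hρ0 _)]
    ring
  have h3 := h (dil S.w ρ⁻¹ (s • Pi.single j 1 : Fin (m + 1) → ℝ)) (by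
    rw [h2, div_le_one (pow_pos hρ0 _)]
    exact hs.le)
  rw [h2] at h3
  have h4 : (gau S hC h hρ).Nr (s • Pi.single j 1) ≤ ρ * (|s| / ρ ^ (S.w j)) := by
    show C⁻¹ * (ρ * G.nrm (dil S.w ρ⁻¹ (s • Pi.single j 1))) ≤ _
    rw [inv_mul_le_iff₀ hC]
    calc ρ * G.nrm (dil S.w ρ⁻¹ (s • Pi.single j 1)) ≤ ρ * (C * (|s| / ρ ^ (S.w j))) := by gcongr
      _ = C * (ρ * (|s| / ρ ^ (S.w j))) := by ring
  calc L * (gau S hC h hρ).Nr (s • Pi.single j 1) ≤ L * (ρ * (|s| / ρ ^ (S.w j))) := by gcongr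
    _ = L * ρ / ρ ^ (S.w j) * |s| := by ring

/-- The product of the filling exponents is at least the homogeneous dimension. -/
theorem hdim_le {n : ℕ} {G : NilLaw n} (S : Stratified G) (B : Matrix (Fin n) (Fin n) ℝ)
    (hB : B.PosDef) {α : ℕ → ℝ} (hα : ∀ j, j + 2 ≤ n → 1 ≤ α (j + 1))
    (hFV : ∀ j, j + 2 ≤ n → FVle G B (j + 1) (α (j + 1))) :
    (S.hdim : ℝ) ≤ Ex α n := by
  rcases n with _ | m
  · simp [Stratified.hdim, Ex_zero]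
  · obtain ⟨C, hC, h⟩ := nrm_le_lin G
    obtain ⟨K3, hK3, h3⟩ := nrm_lt_of_gau S hC h 3 (by norm_num)
    obtain ⟨K4, hK4, h4⟩ := nrm_lt_of_gau S hC h 4 (by norm_num)
    exact main_gauge G B hB hα hFV S.w 1 K3 K4 hK4 fun ρ hρ =>
      ⟨gau S hC h hρ, gau_frame S hC h hρ, h3 ρ hρ, h4 ρ hρ⟩

end Pool.Agent.H364Fill
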