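import Pool.Agent.H364_Fill.Point2

open MeasureTheory MvPolynomial
open scoped ENNReal NNReal Topology

namespace Pool.Agent.H364Fill

open Pool.Agent.TH630

variable {n m : ℕ}

/-! ### Locally Lipschitz functions -/

theorem locallyLipschitz_pi {X : Type*} [PseudoMetricSpace X] {k : ℕ} {f : X → Fin k → ℝ}
    (h : ∀ i, LocallyLipschitz fun x => f x i) : LocallyLipschitz f := by
  intro x
  choose K t ht hK using fun i => h i x
  refine ⟨∑ i, K i, ⋂ i, t i, Filter.iInter_mem.2 ht, ?_⟩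
  apply LipschitzOnWith.of_dist_le_mul
  intro y hy z hz
  rw [dist_pi_le_iff (by positivity)]
  intro i
  refine ((hK i).dist_le_mul y (Set.mem_iInter.1 hy i) z (Set.mem_iInter.1 hz i)).trans ?_
  have : K i ≤ ∑ i, K i := Finset.single_le_sum (f := K) (fun _ _ => bot_le) (Finset.mem_univ i)
  gcongr

theorem LL_mul {X : Type*} [PseudoMetricSpace X] {f g : X → ℝ} (hf : LocallyLipschitz f)
    (hg : LocallyLipschitz g) : LocallyLipschitz fun x => f x * g x := by
  have h : LocallyLipschitz fun p : ℝ × ℝ => p.1 * p.2 :=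
    (contDiff_fst.mul contDiff_snd : ContDiff ℝ 1 fun p : ℝ × ℝ => p.1 * p.2).locallyLipschitz
  exact h.comp (hf.prodMk hg)

theorem LL_add {X : Type*} [PseudoMetricSpace X] {f g : X → ℝ} (hf : LocallyLipschitz f)
    (hg : LocallyLipschitz g) : LocallyLipschitz fun x => f x + g x := by
  have h : LocallyLipschitz fun p : ℝ × ℝ => p.1 + p.2 :=
    (contDiff_fst.add contDiff_snd : ContDiff ℝ 1 fun p : ℝ × ℝ => p.1 + p.2).locallyLipschitz
  exact h.comp (hf.prodMk hg)

theorem LL_sub {X : Type*} [PseudoMetricSpace X] {f g : X → ℝ} (hf : LocallyLipschitz f)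
    (hg : LocallyLipschitz g) : LocallyLipschitz fun x => f x - g x := by
  have h : LocallyLipschitz fun p : ℝ × ℝ => p.1 - p.2 :=
    (contDiff_fst.sub contDiff_snd : ContDiff ℝ 1 fun p : ℝ × ℝ => p.1 - p.2).locallyLipschitz
  exact h.comp (hf.prodMk hg)

theorem LL_sum {X : Type*} [PseudoMetricSpace X] {ι : Type*} (s : Finset ι) {f : ι → X → ℝ}
    (hf : ∀ i, LocallyLipschitz (f i)) : LocallyLipschitz fun x => ∑ i ∈ s, f i x := by
  classical
  induction s using Finset.induction_on with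
  | empty => simpa using LocallyLipschitz.const (0 : ℝ)
  | insert a s ha ih =>
    simp only [Finset.sum_insert ha]
    exact LL_add (hf a) ih

theorem ae_differentiableAt_of_LL {f : (Fin n → ℝ) → ℝ} (hf : LocallyLipschitz f) :
    ∀ᵐ x ∂(volume : Measure (Fin n → ℝ)), DifferentiableAt ℝ f x := by
  have h1 : ∀ k : ℕ, ∀ᵐ x ∂(volume : Measure (Fin n → ℝ)),
      x ∈ Metric.closedBall (0 : Fin n → ℝ) k → DifferentiableWithinAt ℝ f
        (Metric.closedBall (0 : Fin n → ℝ) k) x := by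
    intro k
    obtain ⟨K, hK⟩ := LocallyLipschitzOn.exists_lipschitzOnWith_of_compact
      (isCompact_closedBall (0 : Fin n → ℝ) k) hf.locallyLipschitzOn
    exact hK.ae_differentiableWithinAt_of_mem
  filter_upwards [ae_all_iff.2 h1] with x hx
  obtain ⟨k, hk⟩ := exists_nat_gt ‖x‖
  have h2 : x ∈ Metric.ball (0 : Fin n → ℝ) k := by simpa using hk
  exact (hx k (Metric.ball_subset_closedBall h2)).differentiableAt
    (Filter.mem_of_superset (Metric.isOpen_ball.mem_nhds h2) Metric.ball_subset_closedBall)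

/-! ### Estimates at a good point -/

section Est

variable {G : NilLaw (m + 1)} {ρ : ℝ} {D : Gau G ρ} {R N : ℝ} {ι : Type} [Fintype ι]
  (P : Pou D R N ι)

theorem locallyLipschitz_cut (R : ℝ) : LocallyLipschitz (G.cut R) :=
  G.locallyLipschitz_of_left _ 1 zero_le_one (fun x y => by
    rw [one_mul]
    exact G.cut_lip R x y)

theorem ae_good (hρ : 0 < ρ) (hN : 0 ≤ N) : ∀ᵐ x ∂(volume : Measure (Fin (m + 1) → ℝ)),
    P.Good x := by
  have h1 : ∀ᵐ x ∂(volume : Measure (Fin (m + 1) → ℝ)), ∀ i, DifferentiableAt ℝ (P.χ i) x :=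
    ae_all_iff.2 fun i => ae_differentiableAt_of_LL (P.locallyLipschitz_χ hρ hN i)
  have h2 : ∀ᵐ x ∂(volume : Measure (Fin (m + 1) → ℝ)), DifferentiableAt ℝ (G.cut R) x :=
    ae_differentiableAt_of_LL (locallyLipschitz_cut R)
  filter_upwards [h1, h2] with x hx1 hx2 using ⟨hx1, hx2⟩

theorem near_of_active (hρ : 0 < ρ) {K : ℝ}
    (hK : ∀ x : Fin (m + 1) → ℝ, D.Nr x ≤ 4 * ρ → G.nrm x < K * ρ) {k : ℕ} (f : Fin k → ι)
    (x : Fin (m + 1) → ℝ) (hf : ∀ i, P.χ (f i) x ≠ 0) :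
    G.near (K * ρ) (fun i => P.pt (f i)) := by
  intro i j
  apply le_of_lt
  apply hK
  have h1 := P.supp _ _ (hf i)
  have h2 := P.supp _ _ (hf j)
  have h3 := D.Nr_ldiv_tri hρ (P.pt (f i)) x (P.pt (f j))
  rw [D.Nr_ldiv_comm hρ x] at h3
  linarith

/-- The frame bound constant. -/
def FrameBound (G : NilLaw (m + 1)) (C2 : ℝ) : Prop :=
  0 < C2 ∧ ∀ (x : Fin (m + 1) → ℝ) (u : (Fin (m + 1) → ℝ) → ℝ),
    DifferentiableAt ℝ u x → ∀ L : ℝ, 0 ≤ L → (∀ y, |u (G.mul x y) - u x| ≤ L * G.nrm y) →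
    ∀ j, |fderiv ℝ u x (G.W x (Pi.single j 1))| ≤ C2 * L

theorem frame_χ {C2 : ℝ} (hC2 : FrameBound G C2) (hρ : 0 < ρ) (hN : 0 ≤ N)
    {x : Fin (m + 1) → ℝ} (hx : P.Good x) (i : ι) (j : Fin (m + 1)) :
    |fderiv ℝ (P.χ i) x (G.W x (Pi.single j 1))| ≤ C2 * ((1 + 2 * N) / ρ) :=
  hC2.2 x (P.χ i) (hx.1 i) _ (by positivity) (P.lip_nrm hρ hN i x) j

theorem frame_cut {C2 : ℝ} (hC2 : FrameBound G C2) {x : Fin (m + 1) → ℝ} (hx : P.Good x)
    (j : Fin (m + 1)) : |fderiv ℝ (G.cut R) x (G.W x (Pi.single j 1))| ≤ C2 := by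
  have := hC2.2 x (G.cut R) hx.2 1 zero_le_one (fun y => by
    rw [one_mul]
    exact G.cut_lip R x y) j
  simpa using this

/-- The derivatives along the left-invariant frame of a function which is Lipschitz for the
gauge at scale `ρ`: in the direction of weight `w j` they are smaller by the factor
`ρ ^ (w j - 1)`. -/
def WFrame (D : Gau G ρ) (w : Fin (m + 1) → ℕ) (C4 : ℝ) : Prop :=
  0 < C4 ∧ ∀ (x : Fin (m + 1) → ℝ) (u : (Fin (m + 1) → ℝ) → ℝ),
    DifferentiableAt ℝ u x → ∀ L : ℝ, 0 ≤ L → (∀ y, |u (G.mul x y) - u x| ≤ L * D.Nr y) →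
    ∀ j, |fderiv ℝ u x (G.W x (Pi.single j 1))| ≤ C4 * (L * ρ / ρ ^ (w j))

/-- The constant of the Jacobian bound. -/
noncomputable def C3 (m : ℕ) (C4 N : ℝ) : ℝ :=
  (m + 1).factorial * (C4 * (1 + 2 * N)) ^ (m + 1)

theorem det_weights {k : ℕ} (A : Matrix (Fin k) (Fin k) ℝ) (b : Fin k → ℝ)
    (h : ∀ i j, |A i j| ≤ b j) : |A.det| ≤ k.factorial * ∏ j, b j := by
  rw [← Matrix.det_transpose, Matrix.det_apply]
  refine (Finset.abs_sum_le_sum_abs _ _).trans ?_
  have h1 : ∀ σ : Equiv.Perm (Fin k), |Equiv.Perm.sign σ • ∏ i, A.transpose (σ i) i| ≤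
      ∏ j, b j := by
    intro σ
    have h2 : |Equiv.Perm.sign σ • ∏ i, A.transpose (σ i) i| = |∏ i, A.transpose (σ i) i| := by
      rcases Int.units_eq_one_or (Equiv.Perm.sign σ) with h | h <;> rw [h] <;> simp
    rw [h2, Finset.abs_prod]
    have h3 : ∏ i, |A.transpose (σ i) i| ≤ ∏ i, b (σ i) :=
      Finset.prod_le_prod (fun i _ => abs_nonneg _) (fun i _ => h i (σ i))
    refine h3.trans (le_of_eq ?_)
    exact Equiv.prod_comp σ b
  refine (Finset.sum_le_card_nsmul _ _ _ (fun σ _ => h1 σ)).trans (le_of_eq ?_)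
  rw [Finset.card_univ, Fintype.card_perm, Fintype.card_fin, nsmul_eq_mul]

theorem abs_dt_le {w : Fin (m + 1) → ℕ} {C4 : ℝ} (hC4 : WFrame D w C4) (hρ : 0 < ρ) (hN : 0 ≤ N)
    {x : Fin (m + 1) → ℝ} (hx : P.Good x) (f : Fin (m + 1) → ι) :
    |dt P x f| ≤ C3 m C4 N / ρ ^ (∑ j, w j) := by
  have h1 : dt P x f = (Matrix.of fun i j =>
      fderiv ℝ (P.χ (f i)) x (G.W x (Pi.single j 1))).det := by
    rw [det_rows_comp (fun i => fderiv ℝ (P.χ (f i)) x) (G.W x), G.det_W, mul_one]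
    rfl
  rw [h1]
  have h0 := hC4.1
  have h2 := det_weights (Matrix.of fun i j =>
      fderiv ℝ (P.χ (f i)) x (G.W x (Pi.single j 1)))
      (fun j => C4 * (1 + 2 * N) / ρ ^ (w j)) (fun i j => by
        have h3 := hC4.2 x (P.χ (f i)) (hx.1 (f i)) ((1 + 2 * N) / ρ) (by positivity)
          (fun y => by
            refine (P.lip (f i) x y).trans (le_of_eq ?_)
            ring) j
        refine h3.trans (le_of_eq ?_)
        field_simp)
  refine h2.trans (le_of_eq ?_)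
  rw [C3, Finset.prod_div_distrib, Finset.prod_const, Finset.card_univ, Fintype.card_fin,
    Finset.prod_pow_eq_pow_sum]
  ring

theorem kapF_le {w : Fin (m + 1) → ℕ} {C4 : ℝ} (hC4 : WFrame D w C4) (hρ : 0 < ρ) (hN : 0 ≤ N)
    {K : ℝ} (hK : ∀ x : Fin (m + 1) → ℝ, D.Nr x ≤ 4 * ρ → G.nrm x < K * ρ)
    (F : (Fin (m + 2) → Fin (m + 1) → ℝ) → ℝ) {A : ℝ} (hA : 0 ≤ A)
    (hF : ∀ g, G.near (K * ρ) g → |F g| ≤ A)
    {x : Fin (m + 1) → ℝ} (hx : P.Good x) :
    |∑ f : Fin (m + 2) → ι, wt P x f * F (fun i => P.pt (f i))| ≤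
      N ^ (m + 2) * (A * (C3 m C4 N / ρ ^ (∑ j, w j))) := by
  have hC3 : 0 ≤ C3 m C4 N := by
    rw [C3]
    have := hC4.1
    positivity
  have h1 := abs_sum_le P (x := x) (fun f : Fin (m + 2) → ι => wt P x f * F (fun i => P.pt (f i)))
    (M := A * (C3 m C4 N / ρ ^ (∑ j, w j))) (by positivity)
    (fun f hf => wt_ne_zero P (left_ne_zero_of_mul hf)) (fun f hf => by
      have h2 := wt_ne_zero P (left_ne_zero_of_mul hf)
      have h3 := hF _ (near_of_active P hρ hK f x h2)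
      have h4 := abs_dt_le P hC4 hρ hN hx (fun i => f i.succ)
      rw [abs_mul, wt, abs_mul]
      have h5 : |P.χ (f 0) x| ≤ 1 := by
        rw [abs_of_nonneg (P.nonneg _ _)]
        exact P.le_one _ _
      calc |P.χ (f 0) x| * |dt P x fun i => f i.succ| * |F fun i => P.pt (f i)|
          ≤ 1 * (C3 m C4 N / ρ ^ (∑ j, w j)) * A := by gcongr
        _ = A * (C3 m C4 N / ρ ^ (∑ j, w j)) := by ring)
  exact h1

/-- The inner region: the interpolated form is the form of the cochain of straight simplices. -/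
theorem kap_inner {Q : MvPolynomial (Fin (m + 1 + 1) × Fin (m + 1)) ℝ}
    (hQc : IsCocyclePoly Q) {x : Fin (m + 1) → ℝ} (hx : P.Good x) (hR : G.nrm x < R) :
    kap Q (ev 0) (fun j => Lf P x (Pi.single j 1)) =
      ∑ f : Fin (m + 2) → ι, wt P x f * eval (fun p => P.pt (f p.1) p.2) Q := by
  have h1 : G.cut R x = 1 := G.cut_eq_one hR.le
  have h2 : fderiv ℝ (G.cut R) x = 0 := by
    have : G.cut R =ᶠ[𝓝 x] fun _ => 1 := by
      filter_upwards [(G.isOpen_nball R).mem_nhds hR] with y hy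
      exact G.cut_eq_one (le_of_lt hy)
    rw [this.fderiv_eq]
    simp
  have h3 : ∀ v, Lf P x v = ∑ i, (fderiv ℝ (P.χ i) x v) • ev (P.pt i) := by
    intro v
    rw [Lf, h1, h2]
    simp
  have hR2 : G.nrm x < R + 2 := by linarith
  rw [kap_exchange hQc (ev 0) (∑ i, P.χ i x • ev (P.pt i)) (ev_one 0) (by
      simp only [LinearMap.sum_apply, LinearMap.smul_apply, ev_one, smul_eq_mul, mul_one]
      exact P.sum_one x hR2.le) _ (fun j => Lf_one P hx hR2 _)]
  simp only [h3]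
  rw [kap_combo]
  refine Finset.sum_congr rfl fun f _ => ?_
  rw [wt, dt]

/-- Uniform bound of the interpolated form. -/
theorem kap_bound (Q : MvPolynomial (Fin (m + 1 + 1) × Fin (m + 1)) ℝ) (hρ : 0 < ρ) (hN : 0 ≤ N)
    {C2 : ℝ} (hC2 : FrameBound G C2) (Bd : ℝ) (hBd : 0 ≤ Bd)
    (hB1 : ∀ k ∈ Q.support, ∀ i j, |dfv (0 : Fin (m + 1) → ℝ) (Pi.single j 1)
      (mono k (Fin.succ i))| ≤ Bd)
    (hB2 : ∀ k ∈ Q.support, ∀ i, ∀ y : Fin (m + 1) → ℝ, D.Nr y ≤ 2 * ρ →
      |eval y (mono k (Fin.succ i))| ≤ Bd)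
    {x : Fin (m + 1) → ℝ} (hx : P.Good x) :
    |kap Q (ev 0) (fun j => L0 P x (Pi.single j 1))| ≤
      (∑ k ∈ Q.support, |Q.coeff k| * |eval (0 : Fin (m + 1) → ℝ) (mono k 0)|) *
        ((m + 1).factorial * (Bd + C2 * (N * Bd + Bd) + N * (C2 * ((1 + 2 * N) / ρ) * Bd)) ^
          (m + 1)) := by
  set M := Bd + C2 * (N * Bd + Bd) + N * (C2 * ((1 + 2 * N) / ρ) * Bd) with hM
  have hC20 := hC2.1
  have hM0 : 0 ≤ M := by positivity
  rw [kap, Finset.sum_mul]
  refine (Finset.abs_sum_le_sum_abs _ _).trans (Finset.sum_le_sum fun k hk => ?_)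
  rw [abs_mul, abs_mul, ev_apply, mul_assoc]
  gcongr
  have hsum : ∀ (F : ι → ℝ) (c : ℝ), 0 ≤ c → (∀ i, F i ≠ 0 → P.χ i x ≠ 0) →
      (∀ i, P.χ i x ≠ 0 → |F i| ≤ c) → |∑ i, F i| ≤ N * c := by
    intro F c hc h1 h2
    have h3 := abs_sum_le P (x := x) (fun f : Fin 1 → ι => F (f 0)) hc
      (fun f hf i => by rw [Subsingleton.elim i 0]; exact h1 _ hf)
      (fun f hf => h2 _ (h1 _ hf))
    have h4 : ∑ f : Fin 1 → ι, F (f 0) = ∑ i, F i :=
      (Equiv.funUnique (Fin 1) ι).sum_comp F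
    rw [h4] at h3
    simpa using h3
  have hact : ∀ i, P.χ i x ≠ 0 → D.Nr (G.ldiv x (P.pt i)) ≤ 2 * ρ := by
    intro i hi
    rw [D.Nr_ldiv_comm hρ]
    exact P.supp i x hi
  have h0 : D.Nr (0 : Fin (m + 1) → ℝ) ≤ 2 * ρ := by
    rw [D.Nr_zero hρ]
    positivity
  have hent : ∀ i j : Fin (m + 1), |L0 P x (Pi.single j 1) (mono k (Fin.succ i))| ≤ M := by
    intro i j
    simp only [L0, LinearMap.add_apply, LinearMap.smul_apply, LinearMap.sub_apply,
      LinearMap.sum_apply, smul_eq_mul, ev_apply]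
    have e1 : |(1 - G.cut R x) * dfv (0 : Fin (m + 1) → ℝ) (Pi.single j 1) (mono k (Fin.succ i))| ≤
        Bd := by
      rw [abs_mul]
      have h2 : |1 - G.cut R x| ≤ 1 := by
        rw [abs_le]
        have := G.cut_nonneg R x
        have := G.cut_le_one R x
        constructor <;> linarith
      calc _ ≤ 1 * Bd := by gcongr; exact hB1 k hk i j
        _ = Bd := one_mul _
    have e2 : |fderiv ℝ (G.cut R) x (G.W x (Pi.single j 1)) *
        (∑ a, P.χ a x * eval (G.ldiv x (P.pt a)) (mono k (Fin.succ i)) -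
          eval 0 (mono k (Fin.succ i)))| ≤ C2 * (N * Bd + Bd) := by
      rw [abs_mul]
      have h2 := frame_cut P hC2 hx j
      have h3 : |∑ a, P.χ a x * eval (G.ldiv x (P.pt a)) (mono k (Fin.succ i))| ≤ N * Bd := by
        apply hsum _ _ hBd
        · intro a ha
          exact left_ne_zero_of_mul ha
        · intro a ha
          rw [abs_mul, abs_of_nonneg (P.nonneg a x)]
          calc _ ≤ 1 * Bd := by
                gcongr
                · exact P.le_one a x
                · exact hB2 k hk i _ (hact a ha)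
            _ = Bd := one_mul _
      have h4 := hB2 k hk i 0 h0
      gcongr
      exact (abs_sub _ _).trans (add_le_add h3 h4)
    have e3 : |G.cut R x * ∑ a, fderiv ℝ (P.χ a) x (G.W x (Pi.single j 1)) *
        eval (G.ldiv x (P.pt a)) (mono k (Fin.succ i))| ≤
        N * (C2 * ((1 + 2 * N) / ρ) * Bd) := by
      rw [abs_mul, abs_of_nonneg (G.cut_nonneg R x)]
      have h3 : |∑ a, fderiv ℝ (P.χ a) x (G.W x (Pi.single j 1)) *
          eval (G.ldiv x (P.pt a)) (mono k (Fin.succ i))| ≤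
          N * (C2 * ((1 + 2 * N) / ρ) * Bd) := by
        apply hsum _ _ (by positivity)
        · intro a ha h
          apply ha
          rw [P.fderiv_eq_zero h]
          simp
        · intro a ha
          rw [abs_mul]
          gcongr
          · exact frame_χ P hC2 hρ hN hx a j
          · exact hB2 k hk i _ (hact a ha)
      calc _ ≤ 1 * (N * (C2 * ((1 + 2 * N) / ρ) * Bd)) := by
            gcongr
            exact G.cut_le_one R x
        _ = _ := one_mul _
    rw [hM]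
    refine (abs_add_le _ _).trans (add_le_add ((abs_add_le _ _).trans (add_le_add e1 e2)) e3)
  have := Matrix.det_le (A := Matrix.of fun i j => L0 P x (Pi.single j 1) (mono k (Fin.succ i)))
    (abv := AbsoluteValue.abs) (x := M) hent
  simpa using this

end Est

end Pool.Agent.H364Fill
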