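import Pool.Agent.H364_Fill.Homog

/-!
# The first layer generates: uniform comparison of the dilated norm and the word norm
-/

open scoped ENNReal NNReal Topology

namespace Pool.Agent.H364Fill

open Pool.Agent.TH630

variable {n : ℕ} {G : NilLaw n} (S : Stratified G)

/-- The elements whose dilates by `ρ ≥ 1` have word norm `O(ρ)`. -/
def Good : Set (Fin n → ℝ) := {x | ∃ K : ℝ, ∀ ρ : ℝ, 1 ≤ ρ → G.nrm (dil S.w ρ x) ≤ K * ρ}

theorem good_zero : (0 : Fin n → ℝ) ∈ Good S :=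
  ⟨0, fun ρ _ => by rw [dil_zero, nrm_zero, zero_mul]⟩

theorem good_mul {x y : Fin n → ℝ} (hx : x ∈ Good S) (hy : y ∈ Good S) : G.mul x y ∈ Good S := by
  obtain ⟨K, hK⟩ := hx
  obtain ⟨L, hL⟩ := hy
  refine ⟨K + L, fun ρ hρ => ?_⟩
  rw [← S.dil_mul ρ (by linarith)]
  have h1 := nrm_mul_le G (dil S.w ρ x) (dil S.w ρ y)
  have h2 := hK ρ hρ
  have h3 := hL ρ hρ
  linarith

theorem good_inv {x : Fin n → ℝ} (hx : x ∈ Good S) : G.inv x ∈ Good S := by
  obtain ⟨K, hK⟩ := hx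
  refine ⟨K, fun ρ hρ => ?_⟩
  rw [dil_inv S (by linarith), nrm_inv]
  exact hK ρ hρ

theorem norm_dil_le_norm {w : Fin n → ℕ} (x : Fin n → ℝ) {t : ℝ} (ht0 : 0 ≤ t) (ht1 : t ≤ 1) :
    ‖dil w t x‖ ≤ ‖x‖ := by
  have := norm_dil_le (w := w) (i := 0) (x := x) (fun j hj => absurd hj (Nat.not_lt_zero _))
    ht0 ht1
  simpa using this

theorem good_dil {x : Fin n → ℝ} (hx : x ∈ Good S) {t : ℝ} (ht : 0 < t) :
    dil S.w t x ∈ Good S := by
  obtain ⟨K, hK⟩ := hx
  obtain ⟨C, hC⟩ := nrm_bounded G ‖x‖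
  refine ⟨max (K * t) (max C 0), fun ρ hρ => ?_⟩
  have hρ0 : 0 < ρ := by linarith
  rw [dil_dil]
  rcases le_or_gt 1 (ρ * t) with h1 | h1
  · have h2 := hK (ρ * t) h1
    have h3 : K * t * ρ ≤ max (K * t) (max C 0) * ρ := by
      gcongr
      exact le_max_left _ _
    linarith
  · have h2 := hC _ (norm_dil_le_norm (w := S.w) x (by positivity) h1.le)
    have h3 : C ≤ max (K * t) (max C 0) := (le_max_left _ _).trans (le_max_right _ _)
    have h4 : 0 ≤ max (K * t) (max C 0) := (le_max_right _ _).trans (le_max_right _ _)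
    nlinarith

include S in
theorem nrm_nat_smul (m : ℕ) (x : Fin n → ℝ) : G.nrm ((m : ℝ) • x) ≤ m * G.nrm x := by
  induction m with
  | zero => simp [nrm_zero]
  | succ m ih =>
    have h1 := S.exp_add x m 1
    rw [one_smul] at h1
    push_cast
    rw [← h1]
    have h2 := nrm_mul_le G ((m : ℝ) • x) x
    linarith

theorem good_layer {x : Fin n → ℝ} (hx : x ∈ layer S.w 1) : x ∈ Good S := by
  obtain ⟨C, hC⟩ := nrm_bounded G ‖x‖
  have hC0 : 0 ≤ C := (nrm_nonneg G x).trans (hC x le_rfl)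
  refine ⟨2 * C, fun ρ hρ => ?_⟩
  rw [dil_layer_one hx]
  have hρ0 : 0 < ρ := by linarith
  set m : ℕ := ⌈ρ⌉₊ with hm
  have hm1 : ρ ≤ m := Nat.le_ceil ρ
  have hm2 : (m : ℝ) < ρ + 1 := Nat.ceil_lt_add_one hρ0.le
  have hm0 : (0 : ℝ) < m := by linarith
  have h1 : ρ • x = (m : ℝ) • ((ρ / m) • x) := by
    rw [smul_smul]
    congr 1
    field_simp
  rw [h1]
  refine (nrm_nat_smul S m _).trans ?_
  have h2 : G.nrm ((ρ / m) • x) ≤ C := by
    apply hC
    rw [norm_smul, Real.norm_of_nonneg (by positivity)]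
    have h3 : ρ / m ≤ 1 := by rw [div_le_one hm0]; exact hm1
    have h4 := norm_nonneg x
    nlinarith
  nlinarith

/-- Every vector of the layer `i` is the leading term of a good element. -/
theorem good_lead (i : ℕ) (hi : 1 ≤ i) : ∀ v ∈ layer S.w i, ∃ g ∈ Good S, g ∈ ge S.w i ∧
    ∀ j, S.w j = i → g j = v j := by
  induction i, hi using Nat.le_induction with
  | base => exact fun v hv => ⟨v, good_layer S hv, layer_sub_ge hv, fun _ _ => rfl⟩
  | succ i hi ih =>
    intro v hv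
    rw [← S.gen i hi] at hv
    induction hv using Submodule.span_induction with
    | mem v hv =>
      obtain ⟨x, hx, y, hy, rfl⟩ := hv
      obtain ⟨g, hg, hgi, hgy⟩ := ih y hy
      obtain ⟨h1, h2⟩ := comm_lead S hi hx hgi
      refine ⟨_, good_mul S (good_mul S (good_mul S (good_layer S hx) hg)
        (good_inv S (good_layer S hx))) (good_inv S hg), h1, fun j hj => ?_⟩
      rw [h2 j hj, pr_layer hy hgy]
    | zero => exact ⟨0, good_zero S, fun _ _ => rfl, fun _ _ => rfl⟩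
    | add u v _ _ hu hv =>
      obtain ⟨g, hg, hgi, hgu⟩ := hu
      obtain ⟨h, hh, hhi, hhv⟩ := hv
      refine ⟨G.mul g h, good_mul S hg hh, fun j hj => ?_, fun j hj => ?_⟩
      · rw [mul_low S (by omega) (by omega) hgi hhi (by omega), hgi j hj, hhi j hj, add_zero]
      · rw [mul_low S (by omega) (by omega) hgi hhi (by omega), hgu j hj, hhv j hj,
          Pi.add_apply]
    | smul c v _ hv =>
      obtain ⟨g, hg, hgi, hgv⟩ := hv
      have hpos : ∀ c : ℝ, 0 < c → ∃ g' ∈ Good S, g' ∈ ge S.w (i + 1) ∧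
          ∀ j, S.w j = i + 1 → g' j = c * v j := by
        intro c hc
        set t : ℝ := c ^ (((i + 1 : ℕ) : ℝ)⁻¹) with ht
        have ht0 : 0 < t := Real.rpow_pos_of_pos hc _
        have ht1 : t ^ (i + 1) = c := Real.rpow_inv_natCast_pow hc.le (by omega)
        refine ⟨dil S.w t g, good_dil S hg ht0, fun j hj => ?_, fun j hj => ?_⟩
        · rw [dil_apply, hgi j hj, mul_zero]
        · rw [dil_apply, hj, ht1, hgv j hj]
      rcases lt_trichotomy c 0 with hc | hc | hc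
      · obtain ⟨g', hg', hgi', hgv'⟩ := hpos (-c) (by linarith)
        refine ⟨G.inv g', good_inv S hg', fun j hj => ?_, fun j hj => ?_⟩
        · rw [inv_eq_neg S, Pi.neg_apply, hgi' j hj, neg_zero]
        · rw [inv_eq_neg S, Pi.neg_apply, hgv' j hj, Pi.smul_apply, smul_eq_mul]
          ring
      · subst hc
        exact ⟨0, good_zero S, fun _ _ => rfl, fun _ _ => by simp⟩
      · exact hpos c hc

theorem good_ge (d : ℕ) : ∀ i : ℕ, 1 ≤ i → (∀ j, S.w j < i + d) → ge S.w i ⊆ Good S := by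
  induction d with
  | zero =>
    intro i _ hw x hx
    have : x = 0 := funext fun j => hx j (by simpa using hw j)
    rw [this]
    exact good_zero S
  | succ d ih =>
    intro i hi hw x hx
    obtain ⟨g, hg, hgi, hgx⟩ := good_lead S i hi (pr S.w i x) (pr_mem S.w i x)
    have h1 : G.mul (G.inv g) x ∈ Good S := by
      apply ih (i + 1) (by omega) (fun j => by have := hw j; omega)
      have hig : G.inv g ∈ ge S.w i := fun j hj => by
        rw [inv_eq_neg S, Pi.neg_apply, hgi j hj, neg_zero]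
      intro j hj
      rw [mul_low S hi hi hig hx (by omega), inv_eq_neg S, Pi.neg_apply]
      rcases Nat.lt_or_ge (S.w j) i with h | h
      · rw [hgi j h, hx j h, neg_zero, add_zero]
      · have hji : S.w j = i := by omega
        rw [hgx j hji, pr, if_pos hji, neg_add_cancel]
    have h2 := good_mul S hg h1
    rwa [NilLaw.mulInvCancelLeft] at h2

theorem good_univ (x : Fin n → ℝ) : x ∈ Good S := by
  apply good_ge S (∑ j, S.w j) 1 le_rfl
  · intro j
    have := Finset.single_le_sum (f := S.w) (fun _ _ => Nat.zero_le _) (Finset.mem_univ j)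
    omega
  · intro j hj
    exact absurd (S.w_pos j) (by omega)

theorem continuous_dil (w : Fin n → ℕ) (t : ℝ) : Continuous (dil w t : (Fin n → ℝ) → _) :=
  continuous_pi fun j => continuous_const.mul (continuous_apply j)

/-- Uniform bound near the identity. -/
theorem exists_nhds_bound : ∃ δ : ℝ, 0 < δ ∧ ∃ K : ℝ, 0 < K ∧ ∀ x : Fin n → ℝ, ‖x‖ < δ →
    ∀ ρ : ℝ, 1 ≤ ρ → G.nrm (dil S.w ρ x) ≤ K * ρ := by
  set X : ℕ → Set (Fin n → ℝ) := fun k => {x | ∀ ρ : ℝ, 1 ≤ ρ → G.nrm (dil S.w ρ x) ≤ k * ρ}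
    with hX
  have hcl : ∀ k, IsClosed (X k) := by
    intro k
    have : X k = ⋂ ρ : ℝ, ⋂ _ : 1 ≤ ρ, {x | G.nrm (dil S.w ρ x) ≤ k * ρ} := by
      ext x
      simp [hX]
    rw [this]
    exact isClosed_iInter fun ρ => isClosed_iInter fun _ =>
      isClosed_le ((continuous_nrm G).comp (continuous_dil S.w ρ)) continuous_const
  have hun : ⋃ k, X k = Set.univ := by
    rw [Set.eq_univ_iff_forall]
    intro x
    obtain ⟨K, hK⟩ := good_univ S x
    obtain ⟨k, hk⟩ := exists_nat_ge K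
    rw [Set.mem_iUnion]
    refine ⟨k, fun ρ hρ => (hK ρ hρ).trans ?_⟩
    gcongr
  obtain ⟨k, x0, hx0⟩ := nonempty_interior_of_iUnion_of_closed hcl hun
  have h1 : Filter.Tendsto (fun u => G.mul x0 u) (𝓝 0) (𝓝 x0) := by
    have h2 : Continuous (G.mul x0) := (G.contDiff_mulLeft x0 0).continuous
    have := h2.tendsto 0
    rwa [NilLaw.mulZero] at this
  have h2 := h1.eventually (mem_interior_iff_mem_nhds.1 hx0)
  obtain ⟨δ, hδ, h3⟩ := Metric.eventually_nhds_iff_ball.1 h2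
  refine ⟨δ, hδ, 2 * k + 1, by positivity, fun u hu ρ hρ => ?_⟩
  have h4 : G.mul x0 u ∈ X k := h3 u (by simpa using hu)
  have h5 : x0 ∈ X k := interior_subset hx0
  have h6 := h4 ρ hρ
  have h7 := h5 ρ hρ
  have hρ0 : 0 < ρ := by linarith
  have h8 : dil S.w ρ u = G.mul (G.inv (dil S.w ρ x0)) (dil S.w ρ (G.mul x0 u)) := by
    rw [← S.dil_mul ρ hρ0, NilLaw.invMulCancelLeft]
  have h9 := nrm_mul_le G (G.inv (dil S.w ρ x0)) (dil S.w ρ (G.mul x0 u))
  rw [nrm_inv] at h9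
  rw [h8]
  linarith

/-- Uniform bound on balls. -/
theorem exists_ball_bound (r : ℝ) : ∃ K : ℝ, 0 < K ∧ ∀ x : Fin n → ℝ, ‖x‖ ≤ r →
    ∀ ρ : ℝ, 1 ≤ ρ → G.nrm (dil S.w ρ x) ≤ K * ρ := by
  obtain ⟨δ, hδ, K, hK, h⟩ := exists_nhds_bound S
  set l : ℝ := max 1 ((|r| + 1) / δ) with hl
  have hl1 : 1 ≤ l := le_max_left _ _
  have hl0 : 0 < l := by linarith
  have hl2 : |r| + 1 ≤ l * δ := by
    have : (|r| + 1) / δ ≤ l := le_max_right _ _
    rwa [div_le_iff₀ hδ] at this
  refine ⟨K * l, by positivity, fun x hx ρ hρ => ?_⟩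
  have h1 : ‖dil S.w l⁻¹ x‖ < δ := by
    have h2 := norm_dil_le (w := S.w) (i := 1) (x := x)
      (fun j hj => absurd (S.w_pos j) (by omega)) (t := l⁻¹) (by positivity)
      (inv_le_one_of_one_le₀ hl1)
    rw [pow_one] at h2
    have h3 : ‖x‖ ≤ |r| := hx.trans (le_abs_self r)
    calc ‖dil S.w l⁻¹ x‖ ≤ l⁻¹ * ‖x‖ := h2
      _ ≤ l⁻¹ * |r| := by gcongr
      _ < l⁻¹ * (l * δ) := by
          gcongr
          linarith
      _ = δ := by field_simp
  have h2 := h _ h1 (ρ * l) (by nlinarith)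
  rw [dil_dil] at h2
  have h3 : ρ * l * l⁻¹ = ρ := by field_simp
  rw [h3] at h2
  linarith

end Pool.Agent.H364Fill
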