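import Pool.Agent.H364_Fill.Mixed

/-!
# Leading terms of products and commutators in a stratified group
-/

open scoped ENNReal NNReal Topology

namespace Pool.Agent.H364Fill

open Pool.Agent.TH630

variable {n : ℕ}

/-- The vectors whose components of weight less than `i` vanish. -/
def ge (w : Fin n → ℕ) (i : ℕ) : Set (Fin n → ℝ) := {x | ∀ j, w j < i → x j = 0}

/-- The component in the layer `i`. -/
def pr (w : Fin n → ℕ) (i : ℕ) (x : Fin n → ℝ) : Fin n → ℝ := fun j => if w j = i then x j else 0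

theorem pr_mem (w : Fin n → ℕ) (i : ℕ) (x : Fin n → ℝ) : pr w i x ∈ layer w i := by
  intro j hj
  simp [pr, hj]

theorem mem_layer {w : Fin n → ℕ} {i : ℕ} {x : Fin n → ℝ} :
    x ∈ layer w i ↔ ∀ j, w j ≠ i → x j = 0 := Iff.rfl

theorem layer_sub_ge {w : Fin n → ℕ} {i : ℕ} {x : Fin n → ℝ} (hx : x ∈ layer w i) :
    x ∈ ge w i := fun j hj => hx j hj.ne

theorem pr_layer {w : Fin n → ℕ} {i : ℕ} {x y : Fin n → ℝ} (hy : y ∈ layer w i)
    (h : ∀ j, w j = i → x j = y j) : pr w i x = y := by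
  funext j
  by_cases hj : w j = i
  · simp [pr, hj, h j hj]
  · simp [pr, hj, hy j hj]

theorem dil_apply (w : Fin n → ℕ) (t : ℝ) (x : Fin n → ℝ) (j : Fin n) :
    dil w t x j = t ^ (w j) * x j := rfl

theorem dil_zero (w : Fin n → ℕ) (t : ℝ) : dil w t (0 : Fin n → ℝ) = 0 := by
  funext j
  simp [dil]

theorem dil_dil (w : Fin n → ℕ) (s t : ℝ) (x : Fin n → ℝ) :
    dil w s (dil w t x) = dil w (s * t) x := by
  funext j
  simp only [dil, mul_pow]
  ring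

theorem dil_one (w : Fin n → ℕ) (x : Fin n → ℝ) : dil w 1 x = x := by
  funext j
  simp [dil]

theorem dil_layer_one {w : Fin n → ℕ} {x : Fin n → ℝ} (hx : x ∈ layer w 1) (t : ℝ) :
    dil w t x = t • x := by
  funext j
  by_cases hj : w j = 1
  · simp [dil, hj]
  · simp [dil, hx j hj]

theorem norm_dil_le {w : Fin n → ℕ} {i : ℕ} {x : Fin n → ℝ} (hx : x ∈ ge w i) {t : ℝ}
    (ht0 : 0 ≤ t) (ht1 : t ≤ 1) : ‖dil w t x‖ ≤ t ^ i * ‖x‖ := by
  rw [pi_norm_le_iff_of_nonneg (by positivity)]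
  intro j
  rcases lt_or_ge (w j) i with hj | hj
  · rw [dil_apply, hx j hj, mul_zero, norm_zero]
    positivity
  · rw [dil_apply, norm_mul, norm_pow, Real.norm_of_nonneg ht0]
    have h1 : t ^ (w j) ≤ t ^ i := pow_le_pow_of_le_one ht0 ht1 hj
    have h2 := norm_le_pi_norm x j
    gcongr

theorem norm_dil_sub_le {w : Fin n → ℕ} {i : ℕ} {x : Fin n → ℝ} (hx : x ∈ ge w i) {t : ℝ}
    (ht0 : 0 ≤ t) (ht1 : t ≤ 1) : ‖dil w t x - t ^ i • pr w i x‖ ≤ t ^ (i + 1) * ‖x‖ := by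
  rw [pi_norm_le_iff_of_nonneg (by positivity)]
  intro j
  rw [Pi.sub_apply, Pi.smul_apply, dil_apply, smul_eq_mul]
  rcases lt_trichotomy (w j) i with hj | hj | hj
  · rw [hx j hj, pr, if_neg hj.ne, mul_zero, mul_zero, sub_zero, norm_zero]
    positivity
  · rw [pr, if_pos hj, hj, sub_self, norm_zero]
    positivity
  · rw [pr, if_neg hj.ne', mul_zero, sub_zero, norm_mul, norm_pow, Real.norm_of_nonneg ht0]
    have h1 : t ^ (w j) ≤ t ^ (i + 1) := pow_le_pow_of_le_one ht0 ht1 hj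
    have h2 := norm_le_pi_norm x j
    gcongr

theorem eq_zero_of_small {a M l : ℝ} (hl : 0 < l) (h : ∀ t, 0 < t → t < l → |a| ≤ M * t) :
    a = 0 := by
  have h1 : Filter.Tendsto (fun t : ℝ => M * t) (𝓝[>] 0) (𝓝 (M * 0)) :=
    (tendsto_nhdsWithin_of_tendsto_nhds Filter.tendsto_id).const_mul M
  have h2 : ∀ᶠ t : ℝ in 𝓝[>] 0, |a| ≤ M * t := by
    filter_upwards [self_mem_nhdsWithin, mem_nhdsWithin_of_mem_nhds (gt_mem_nhds hl)] with t h3 h4
    exact h t h3 h4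
  have h3 := ge_of_tendsto h1 h2
  rw [mul_zero] at h3
  exact abs_eq_zero.1 (le_antisymm h3 (abs_nonneg a))

/-- Homogeneous functions which vanish on both axes vanish on vectors of high weight. -/
theorem hom_vanish (F : (Fin n → ℝ) × (Fin n → ℝ) → ℝ) (hF : ContDiff ℝ 2 F)
    (h1 : ∀ x, F (x, 0) = 0) (h2 : ∀ y, F (0, y) = 0) (w : Fin n → ℕ) (d : ℕ)
    (hom : ∀ t : ℝ, 0 < t → ∀ x y, F (dil w t x, dil w t y) = t ^ d * F (x, y))
    {a b : ℕ} (ha : 1 ≤ a) (hb : 1 ≤ b) (hd : d < a + b) {x y : Fin n → ℝ} (hx : x ∈ ge w a)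
    (hy : y ∈ ge w b) : F (x, y) = 0 := by
  obtain ⟨β, hβ⟩ := mixed_small F hF h1 h2
  obtain ⟨δ, hδ, hb1⟩ := hβ 1 one_pos
  refine eq_zero_of_small (l := min 1 (δ / (‖x‖ + ‖y‖ + 1))) (M := (‖β‖ + 1) * ‖x‖ * ‖y‖)
    (by positivity) (fun t ht0 ht => ?_)
  have ht1 : t < 1 := ht.trans_le (min_le_left _ _)
  have ht2 : t * (‖x‖ + ‖y‖ + 1) < δ := by
    have := ht.trans_le (min_le_right _ _)
    rwa [lt_div_iff₀ (by positivity)] at this
  have hnx := norm_nonneg x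
  have hny := norm_nonneg y
  have e1 := norm_dil_le hx ht0.le ht1.le
  have e2 := norm_dil_le hy ht0.le ht1.le
  have ea : t ^ a ≤ t := by
    calc t ^ a ≤ t ^ 1 := pow_le_pow_of_le_one ht0.le ht1.le ha
      _ = t := pow_one t
  have eb : t ^ b ≤ t := by
    calc t ^ b ≤ t ^ 1 := pow_le_pow_of_le_one ht0.le ht1.le hb
      _ = t := pow_one t
  have e3 : ‖dil w t x‖ < δ := by
    calc ‖dil w t x‖ ≤ t ^ a * ‖x‖ := e1
      _ ≤ t * ‖x‖ := by gcongr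
      _ < δ := by nlinarith
  have e4 : ‖dil w t y‖ < δ := by
    calc ‖dil w t y‖ ≤ t ^ b * ‖y‖ := e2
      _ ≤ t * ‖y‖ := by gcongr
      _ < δ := by nlinarith
  have e5 := hb1 _ _ e3 e4
  have e6 : |β (dil w t x) (dil w t y)| ≤ ‖β‖ * ‖dil w t x‖ * ‖dil w t y‖ :=
    β.le_opNorm₂ _ _
  have e7 : |F (dil w t x, dil w t y)| ≤ (‖β‖ + 1) * ‖dil w t x‖ * ‖dil w t y‖ := by
    have := abs_sub_abs_le_abs_sub (F (dil w t x, dil w t y)) (β (dil w t x) (dil w t y))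
    nlinarith
  rw [hom t ht0, abs_mul, abs_of_pos (pow_pos ht0 d)] at e7
  have e8 : (‖β‖ + 1) * ‖dil w t x‖ * ‖dil w t y‖ ≤
      (‖β‖ + 1) * (t ^ a * ‖x‖) * (t ^ b * ‖y‖) := by gcongr
  have e9 : t ^ (a + b) ≤ t ^ (d + 1) := pow_le_pow_of_le_one ht0.le ht1.le hd
  have e10 : (‖β‖ + 1) * (t ^ a * ‖x‖) * (t ^ b * ‖y‖) ≤
      t ^ d * ((‖β‖ + 1) * ‖x‖ * ‖y‖ * t) := by
    calc (‖β‖ + 1) * (t ^ a * ‖x‖) * (t ^ b * ‖y‖) =
        ((‖β‖ + 1) * ‖x‖ * ‖y‖) * t ^ (a + b) := by rw [pow_add]; ring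
      _ ≤ ((‖β‖ + 1) * ‖x‖ * ‖y‖) * t ^ (d + 1) := by gcongr
      _ = t ^ d * ((‖β‖ + 1) * ‖x‖ * ‖y‖ * t) := by rw [pow_succ]; ring
  exact le_of_mul_le_mul_left ((e7.trans e8).trans e10) (pow_pos ht0 d)

/-- The leading term. -/
theorem hom_lead (F : (Fin n → ℝ) × (Fin n → ℝ) → ℝ)
    (β : (Fin n → ℝ) →L[ℝ] (Fin n → ℝ) →L[ℝ] ℝ) (hβ : ∀ ε : ℝ, 0 < ε → ∃ δ : ℝ, 0 < δ ∧
      ∀ x y, ‖x‖ < δ → ‖y‖ < δ → |F (x, y) - β x y| ≤ ε * ‖x‖ * ‖y‖)
    (w : Fin n → ℕ) {i : ℕ} (hi : 1 ≤ i)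
    (hom : ∀ t : ℝ, 0 < t → ∀ x y, F (dil w t x, dil w t y) = t ^ (i + 1) * F (x, y))
    {x y : Fin n → ℝ} (hx : x ∈ layer w 1) (hy : y ∈ ge w i) : F (x, y) = β x (pr w i y) := by
  rw [← sub_eq_zero]
  refine eq_zero_of_small (l := 1) (M := 2 * (‖x‖ * ‖y‖)) one_pos (fun ε hε _ => ?_)
  obtain ⟨δ, hδ, hb1⟩ := hβ ε hε
  set t : ℝ := min (1 / 2) (min (δ / (2 * (‖x‖ + ‖y‖ + 1))) (ε / (‖β‖ + 1))) with ht
  have ht0 : 0 < t := by positivity
  have ht1 : t < 1 := (min_le_left _ _).trans_lt (by norm_num)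
  have hta : t ≤ δ / (2 * (‖x‖ + ‖y‖ + 1)) := (min_le_right _ _).trans (min_le_left _ _)
  have htb : t ≤ ε / (‖β‖ + 1) := (min_le_right _ _).trans (min_le_right _ _)
  rw [le_div_iff₀ (by positivity)] at hta htb
  have hnx := norm_nonneg x
  have hny := norm_nonneg y
  have e2 := norm_dil_le hy ht0.le ht1.le
  have eb : t ^ i ≤ t := by
    calc t ^ i ≤ t ^ 1 := pow_le_pow_of_le_one ht0.le ht1.le hi
      _ = t := pow_one t
  have e1 : dil w t x = t • x := dil_layer_one hx t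
  have e3 : ‖dil w t x‖ < δ := by
    rw [e1, norm_smul, Real.norm_of_nonneg ht0.le]
    nlinarith
  have e4 : ‖dil w t y‖ < δ := by
    calc ‖dil w t y‖ ≤ t ^ i * ‖y‖ := e2
      _ ≤ t * ‖y‖ := by gcongr
      _ < δ := by nlinarith
  have e5 := hb1 _ _ e3 e4
  rw [hom t ht0] at e5
  have e6 : β (dil w t x) (dil w t y) = t * β x (dil w t y) := by
    rw [e1]
    simp only [map_smul, smul_apply, smul_eq_mul]
  have e7 : β x (dil w t y) = t ^ i * β x (pr w i y) + β x (dil w t y - t ^ i • pr w i y) := by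
    rw [map_sub, map_smul, smul_eq_mul]
    ring
  have e8 : |β x (dil w t y - t ^ i • pr w i y)| ≤ ‖β‖ * ‖x‖ * (t ^ (i + 1) * ‖y‖) := by
    refine (β.le_opNorm₂ _ _).trans ?_
    have := norm_dil_sub_le hy ht0.le ht1.le
    gcongr
  have e9 : ‖dil w t x‖ = t * ‖x‖ := by rw [e1, norm_smul, Real.norm_of_nonneg ht0.le]
  have e10 : ε * ‖dil w t x‖ * ‖dil w t y‖ ≤ ε * (t * ‖x‖) * (t ^ i * ‖y‖) := by
    rw [e9]
    gcongr
  have e11 : t ^ (i + 1) * |F (x, y) - β x (pr w i y)| ≤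
      t ^ (i + 1) * (2 * (‖x‖ * ‖y‖) * ε) := by
    rw [← abs_of_pos (pow_pos ht0 (i + 1)), ← abs_mul, abs_of_pos (pow_pos ht0 (i + 1))]
    have e12 : t ^ (i + 1) * (F (x, y) - β x (pr w i y)) =
        (t ^ (i + 1) * F (x, y) - β (dil w t x) (dil w t y)) +
          t * β x (dil w t y - t ^ i • pr w i y) := by
      rw [e6, e7, pow_succ]
      ring
    rw [e12]
    refine (abs_add_le _ _).trans ?_
    rw [abs_mul t, abs_of_pos ht0]
    have e13 : t * |β x (dil w t y - t ^ i • pr w i y)| ≤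
        t ^ (i + 1) * ((‖x‖ * ‖y‖) * ε) := by
      calc t * |β x (dil w t y - t ^ i • pr w i y)| ≤
          t * (‖β‖ * ‖x‖ * (t ^ (i + 1) * ‖y‖)) := by gcongr
        _ = t ^ (i + 1) * ((‖x‖ * ‖y‖) * (t * ‖β‖)) := by ring
        _ ≤ t ^ (i + 1) * ((‖x‖ * ‖y‖) * ε) := by
            have : t * ‖β‖ ≤ ε := by nlinarith [norm_nonneg β]
            gcongr
    have e14 : ε * (t * ‖x‖) * (t ^ i * ‖y‖) = t ^ (i + 1) * ((‖x‖ * ‖y‖) * ε) := by
      rw [pow_succ]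
      ring
    linarith
  exact le_of_mul_le_mul_left e11 (pow_pos ht0 (i + 1))

/-! ### The group law -/

/-- The deviation of the `j`-th coordinate of the product from the sum. -/
noncomputable def Rf (G : NilLaw n) (j : Fin n) (p : (Fin n → ℝ) × (Fin n → ℝ)) : ℝ :=
  G.mul p.1 p.2 j - p.1 j - p.2 j

/-- The deviation of the `j`-th coordinate of a conjugate. -/
noncomputable def Cf (G : NilLaw n) (j : Fin n) (p : (Fin n → ℝ) × (Fin n → ℝ)) : ℝ :=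
  G.mul (G.mul p.1 p.2) (G.inv p.1) j - p.2 j

theorem contDiff_Rf (G : NilLaw n) (j : Fin n) : ContDiff ℝ 2 (Rf G j) :=
  ((contDiff_pi.1 (G.contDiff_mul₂ 2) j).sub ((contDiff_apply ℝ ℝ j).comp contDiff_fst)).sub
    ((contDiff_apply ℝ ℝ j).comp contDiff_snd)

theorem contDiff_conj (G : NilLaw n) : ContDiff ℝ 2
    (fun p : (Fin n → ℝ) × (Fin n → ℝ) => G.mul (G.mul p.1 p.2) (G.inv p.1)) :=
  G.contDiff_mul (G.contDiff_mul₂ 2) ((G.contDiff_inv 2).comp contDiff_fst)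

theorem contDiff_Cf (G : NilLaw n) (j : Fin n) : ContDiff ℝ 2 (Cf G j) :=
  (contDiff_pi.1 (contDiff_conj G) j).sub ((contDiff_apply ℝ ℝ j).comp contDiff_snd)

theorem exists_form (G : NilLaw n) (j : Fin n) :
    ∃ β : (Fin n → ℝ) →L[ℝ] (Fin n → ℝ) →L[ℝ] ℝ, (∀ ε : ℝ, 0 < ε → ∃ δ : ℝ, 0 < δ ∧
      ∀ x y, ‖x‖ < δ → ‖y‖ < δ → |Cf G j (x, y) - β x y| ≤ ε * ‖x‖ * ‖y‖) ∧
      ∀ x y, HasDerivAt (fun s : ℝ => Ad G (s • x) y j) (β x y) 0 := by
  have h1 : ∀ x, Cf G j (x, 0) = 0 := fun x => by simp [Cf]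
  have h2 : ∀ y, Cf G j (0, y) = 0 := fun y => by simp [Cf]
  obtain ⟨β, hβ⟩ := mixed_small (Cf G j) (contDiff_Cf G j) h1 h2
  refine ⟨β, hβ, fun x y => ?_⟩
  have h3 := mixed_deriv (Cf G j) (contDiff_Cf G j) h1 β hβ x y
  have h4 : (fun s : ℝ => Ad G (s • x) y j) =
      fun s : ℝ => deriv (fun t : ℝ => Cf G j (s • x, t • y)) 0 + y j := by
    funext s
    have h5 : Differentiable ℝ
        (fun p : (Fin n → ℝ) × (Fin n → ℝ) => G.mul (G.mul p.1 p.2) (G.inv p.1)) :=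
      (contDiff_conj G).differentiable (by norm_num)
    have h6 : DifferentiableAt ℝ (fun t : ℝ => (s • x, t • y)) 0 :=
      (differentiableAt_const _).prodMk (differentiableAt_id.smul_const y)
    have h7 : DifferentiableAt ℝ
        (fun t : ℝ => G.mul (G.mul (s • x) (t • y)) (G.inv (s • x))) 0 :=
      (h5 _).comp (0 : ℝ) h6
    have h8 := hasDerivAt_pi.1 h7.hasDerivAt j
    have h9 : HasDerivAt (fun t : ℝ => t * y j) (y j) 0 := by
      simpa using (hasDerivAt_id' (0 : ℝ)).mul_const (y j)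
    have h10 : HasDerivAt (fun t : ℝ => Cf G j (s • x, t • y)) (Ad G (s • x) y j - y j) 0 :=
      h8.fun_sub h9
    rw [h10.deriv]
    ring
  rw [h4]
  exact h3.add_const (y j)

variable {G : NilLaw n} (S : Stratified G)

include S

theorem inv_eq_neg (x : Fin n → ℝ) : G.inv x = -x := by
  have h1 := S.exp_add x (-1) 1
  rw [one_smul, neg_one_smul, neg_add_cancel, zero_smul] at h1
  have h2 : G.mul (G.mul (-x) x) (G.inv x) = G.inv x := by rw [h1, NilLaw.zeroMul]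
  rw [G.mulA, G.mulInv, NilLaw.mulZero] at h2
  exact h2.symm

theorem dil_inv {t : ℝ} (ht : 0 < t) (x : Fin n → ℝ) :
    dil S.w t (G.inv x) = G.inv (dil S.w t x) := by
  rw [inv_eq_neg S, inv_eq_neg S]
  funext j
  simp [dil]

theorem bracket_apply (x y : Fin n → ℝ) (j : Fin n)
    (β : Fin n → (Fin n → ℝ) →L[ℝ] (Fin n → ℝ) →L[ℝ] ℝ)
    (hβ : ∀ j, HasDerivAt (fun s : ℝ => Ad G (s • x) y j) (β j x y) 0) :
    bracket G x y j = β j x y := by
  have h : HasDerivAt (fun s : ℝ => Ad G (s • x) y) (fun j => β j x y) 0 :=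
    hasDerivAt_pi.2 hβ
  rw [bracket, h.deriv]

theorem mul_low {a b : ℕ} (ha : 1 ≤ a) (hb : 1 ≤ b) {x y : Fin n → ℝ} (hx : x ∈ ge S.w a)
    (hy : y ∈ ge S.w b) {j : Fin n} (hj : S.w j < a + b) : G.mul x y j = x j + y j := by
  have h := hom_vanish (Rf G j) (contDiff_Rf G j) (fun x => by simp [Rf]) (fun y => by simp [Rf])
    S.w (S.w j) (fun t ht x y => by
      simp only [Rf]
      rw [S.dil_mul t ht, dil_apply, dil_apply, dil_apply]
      ring) ha hb hj hx hy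
  simp only [Rf] at h
  linarith

theorem hom_Cf (j : Fin n) (t : ℝ) (ht : 0 < t) (x y : Fin n → ℝ) :
    Cf G j (dil S.w t x, dil S.w t y) = t ^ (S.w j) * Cf G j (x, y) := by
  simp only [Cf]
  rw [← dil_inv S ht, S.dil_mul t ht, S.dil_mul t ht, dil_apply, dil_apply]
  ring

theorem conj_low {b : ℕ} (hb : 1 ≤ b) (x : Fin n → ℝ) {g : Fin n → ℝ}
    (hg : g ∈ ge S.w b) {j : Fin n} (hj : S.w j < 1 + b) :
    G.mul (G.mul x g) (G.inv x) j = g j := by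
  have h := hom_vanish (Cf G j) (contDiff_Cf G j) (fun x => by simp [Cf]) (fun y => by simp [Cf])
    S.w (S.w j) (fun t ht x y => hom_Cf S j t ht x y) le_rfl hb hj
    (x := x) (y := g) (fun k hk => absurd (S.w_pos k) (by omega)) hg
  simp only [Cf] at h
  linarith

theorem conj_lead {i : ℕ} (hi : 1 ≤ i) {x g : Fin n → ℝ} (hx : x ∈ layer S.w 1)
    (hg : g ∈ ge S.w i) {j : Fin n} (hj : S.w j = i + 1) :
    G.mul (G.mul x g) (G.inv x) j = g j + bracket G x (pr S.w i g) j := by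
  choose β hβ1 hβ2 using fun j => exists_form G j
  have h := hom_lead (Cf G j) (β j) (hβ1 j) S.w hi (fun t ht x y => by
    rw [hom_Cf S j t ht, hj]) hx hg
  rw [bracket_apply S x (pr S.w i g) j β (fun j => hβ2 j x (pr S.w i g)), ← h]
  simp only [Cf]
  ring

/-- The commutator `x g x⁻¹ g⁻¹`. -/
theorem comm_lead {i : ℕ} (hi : 1 ≤ i) {x g : Fin n → ℝ} (hx : x ∈ layer S.w 1)
    (hg : g ∈ ge S.w i) :
    G.mul (G.mul (G.mul x g) (G.inv x)) (G.inv g) ∈ ge S.w (i + 1) ∧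
      ∀ j, S.w j = i + 1 → G.mul (G.mul (G.mul x g) (G.inv x)) (G.inv g) j =
        bracket G x (pr S.w i g) j := by
  set u := G.mul (G.mul x g) (G.inv x) with hu
  have hu1 : ∀ j, S.w j < 1 + i → u j = g j := fun j hj => conj_low S hi x hg hj
  have hug : u ∈ ge S.w i := fun j hj => by rw [hu1 j (by omega), hg j hj]
  have hig : G.inv g ∈ ge S.w i := fun j hj => by
    rw [inv_eq_neg S, Pi.neg_apply, hg j hj, neg_zero]
  have h1 : G.mul u (G.inv g) ∈ ge S.w (i + 1) := by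
    intro j hj
    rw [mul_low S hi hi hug hig (by omega), hu1 j (by omega), inv_eq_neg S, Pi.neg_apply,
      add_neg_cancel]
  refine ⟨h1, fun j hj => ?_⟩
  have h2 : G.mul (G.mul u (G.inv g)) g j = u j := by rw [G.mulA, NilLaw.invMul, NilLaw.mulZero]
  rw [mul_low S (by omega) hi h1 hg (by omega), hu, conj_lead S hi hx hg hj] at h2
  linarith

end Pool.Agent.H364Fill
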