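import Pool.Agent.H364_Fill.Strat

/-!
# Functions which vanish on both axes
-/

open scoped ENNReal NNReal Topology

namespace Pool.Agent.H364Fill

open Pool.Agent.TH630

variable {n : ℕ}

/-- A `C^2` function which vanishes on both axes is, to first order near the origin, a bilinear
form. -/
theorem mixed_small {E : Type*} [NormedAddCommGroup E] [NormedSpace ℝ E]
    (F : E × E → ℝ) (hF : ContDiff ℝ 2 F) (h1 : ∀ x, F (x, 0) = 0) (h2 : ∀ y, F (0, y) = 0) :
    ∃ β : E →L[ℝ] E →L[ℝ] ℝ, ∀ ε : ℝ, 0 < ε → ∃ δ : ℝ, 0 < δ ∧ ∀ x y : E, ‖x‖ < δ → ‖y‖ < δ →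
      |F (x, y) - β x y| ≤ ε * ‖x‖ * ‖y‖ := by
  set Φ : E × E → (E →L[ℝ] ℝ) := fun p => (fderiv ℝ F p).comp (ContinuousLinearMap.inl ℝ E E)
    with hΦ
  have hΦC : ContDiff ℝ 1 Φ := (hF.fderiv_right (m := 1) (by norm_num)).clm_comp contDiff_const
  have hst : HasStrictFDerivAt Φ (fderiv ℝ Φ 0) 0 :=
    hΦC.contDiffAt.hasStrictFDerivAt (by norm_num)
  set T : E × E →L[ℝ] (E →L[ℝ] ℝ) := fderiv ℝ Φ 0 with hT
  have hFd : Differentiable ℝ F := hF.differentiable (by norm_num)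
  have hder : ∀ x y : E, HasFDerivAt (fun x' => F (x', y)) (Φ (x, y)) x := by
    intro x y
    have h3 : HasFDerivAt (fun x' : E => (x', y)) (ContinuousLinearMap.inl ℝ E E) x :=
      hasFDerivAt_prodMk_left x y
    exact (hFd (x, y)).hasFDerivAt.comp x h3
  have hΦ0 : ∀ x, Φ (x, 0) = 0 := by
    intro x
    have h3 := hder x 0
    have h4 : (fun x' : E => F (x', 0)) = fun _ => 0 := funext h1
    rw [h4] at h3
    exact h3.unique (hasFDerivAt_const 0 x)
  refine ⟨(T.comp (ContinuousLinearMap.inr ℝ E E)).flip, fun ε hε => ?_⟩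
  have hlo := hst.isLittleO.def hε
  have hlo' : ∀ᶠ p in 𝓝 (0 : (E × E) × (E × E)),
      ‖Φ p.1 - Φ p.2 - T (p.1 - p.2)‖ ≤ ε * ‖p.1 - p.2‖ := hlo
  obtain ⟨δ, hδ, hball⟩ := Metric.eventually_nhds_iff_ball.1 hlo'
  refine ⟨δ, hδ, fun x y hx hy => ?_⟩
  have hbd : ∀ x' : E, ‖x'‖ < δ → ‖Φ (x', y) - T (0, y)‖ ≤ ε * ‖y‖ := by
    intro x' hx'
    have h3 := hball ((x', y), (x', 0)) (by
      rw [mem_ball_zero_iff, Prod.norm_mk, Prod.norm_mk, Prod.norm_mk, norm_zero]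
      refine max_lt (max_lt hx' hy) (max_lt hx' hδ))
    simp only [hΦ0, sub_zero, Prod.mk_sub_mk, sub_self] at h3
    rwa [Prod.norm_mk, norm_zero, max_eq_right (norm_nonneg y)] at h3
  have hconv : Convex ℝ (Metric.ball (0 : E) δ) := convex_ball 0 δ
  have hmv := hconv.norm_image_sub_le_of_norm_hasFDerivWithin_le
    (f := fun x' => F (x', y) - T (0, y) x')
    (f' := fun x' => Φ (x', y) - T (0, y)) (C := ε * ‖y‖)
    (fun x' _ => ((hder x' y).sub (T (0, y)).hasFDerivAt).hasFDerivWithinAt)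
    (fun x' hx' => hbd x' (by simpa using hx'))
    (x := 0) (y := x) (by simpa using hδ) (by simpa using hx)
  rw [h2, map_zero, sub_zero, sub_zero, sub_zero] at hmv
  rw [ContinuousLinearMap.flip_apply, ContinuousLinearMap.comp_apply,
    ContinuousLinearMap.inr_apply]
  calc |F (x, y) - T (0, y) x| ≤ ε * ‖y‖ * ‖x‖ := hmv
    _ = ε * ‖x‖ * ‖y‖ := by ring

/-- The bilinear form of `mixed_small` is the mixed second derivative. -/
theorem mixed_deriv {E : Type*} [NormedAddCommGroup E] [NormedSpace ℝ E]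
    (F : E × E → ℝ) (hF : ContDiff ℝ 2 F) (h1 : ∀ x, F (x, 0) = 0)
    (β : E →L[ℝ] E →L[ℝ] ℝ) (hβ : ∀ ε : ℝ, 0 < ε → ∃ δ : ℝ, 0 < δ ∧ ∀ x y : E, ‖x‖ < δ →
      ‖y‖ < δ → |F (x, y) - β x y| ≤ ε * ‖x‖ * ‖y‖) (x y : E) :
    HasDerivAt (fun s : ℝ => deriv (fun t : ℝ => F (s • x, t • y)) 0) (β x y) 0 := by
  have hFd : Differentiable ℝ F := hF.differentiable (by norm_num)
  have hd : ∀ s : ℝ, DifferentiableAt ℝ (fun t : ℝ => F (s • x, t • y)) 0 := by
    intro s
    have h3 : DifferentiableAt ℝ (fun t : ℝ => (s • x, t • y)) 0 :=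
      (differentiableAt_const _).prodMk (differentiableAt_id.smul_const y)
    exact (hFd _).comp (0 : ℝ) h3
  have key : ∀ ε : ℝ, 0 < ε → ∀ᶠ s : ℝ in 𝓝 0,
      |deriv (fun t : ℝ => F (s • x, t • y)) 0 - s * β x y| ≤ ε * |s| := by
    intro ε hε
    obtain ⟨δ, hδ, h⟩ := hβ (ε / (‖x‖ * ‖y‖ + 1)) (by positivity)
    have hcx : Filter.Tendsto (fun s : ℝ => ‖s • x‖) (𝓝 0) (𝓝 0) := by
      have : Continuous fun s : ℝ => ‖s • x‖ := by fun_prop
      simpa using this.tendsto 0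
    have hcy : Filter.Tendsto (fun s : ℝ => ‖s • y‖) (𝓝 0) (𝓝 0) := by
      have : Continuous fun s : ℝ => ‖s • y‖ := by fun_prop
      simpa using this.tendsto 0
    filter_upwards [hcx.eventually (gt_mem_nhds hδ)] with s hs
    have h3 : HasDerivAt (fun t : ℝ => F (s • x, t • y) - t * (s * β x y))
        (deriv (fun t : ℝ => F (s • x, t • y)) 0 - s * β x y) 0 := by
      have h4 := (hd s).hasDerivAt.fun_sub ((hasDerivAt_id' (0 : ℝ)).mul_const (s * β x y))
      rwa [one_mul] at h4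
    have h5 := h3.le_of_lip' (C := ε * |s|) (by positivity) (by
      filter_upwards [hcy.eventually (gt_mem_nhds hδ)] with t ht
      have h6 := h (s • x) (t • y) hs ht
      simp only [zero_smul, h1, zero_mul, sub_zero]
      have e0 : β (s • x) (t • y) = s * (t * β x y) := by
        simp only [map_smul, smul_apply, smul_eq_mul]
        ring
      rw [e0] at h6
      have e1 : F (s • x, t • y) - t * (s * β x y) = F (s • x, t • y) - s * (t * β x y) := by ring
      rw [Real.norm_eq_abs, Real.norm_eq_abs, e1]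
      refine h6.trans ?_
      rw [norm_smul, norm_smul, Real.norm_eq_abs, Real.norm_eq_abs]
      have e2 : ε / (‖x‖ * ‖y‖ + 1) * (|s| * ‖x‖) * (|t| * ‖y‖) =
          (ε * |s| * |t|) * ((‖x‖ * ‖y‖) / (‖x‖ * ‖y‖ + 1)) := by ring
      rw [e2]
      have e3 : (‖x‖ * ‖y‖) / (‖x‖ * ‖y‖ + 1) ≤ 1 := by
        rw [div_le_one (by positivity)]
        linarith
      calc (ε * |s| * |t|) * ((‖x‖ * ‖y‖) / (‖x‖ * ‖y‖ + 1)) ≤ (ε * |s| * |t|) * 1 := by gcongr
        _ = ε * |s| * |t| := by ring)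
    exact h5
  rw [hasDerivAt_iff_isLittleO, Asymptotics.isLittleO_iff]
  intro ε hε
  have h0 : deriv (fun t : ℝ => F ((0 : ℝ) • x, t • y)) 0 = 0 := by
    have := (key 1 one_pos).self_of_nhds
    simpa using this
  filter_upwards [key ε hε] with s hs
  rw [h0, sub_zero, sub_zero, smul_eq_mul, Real.norm_eq_abs, Real.norm_eq_abs]
  exact hs

end Pool.Agent.H364Fill
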