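import Pool.Agent.H364_Fill.Point

open MeasureTheory MvPolynomial
open scoped ENNReal NNReal Topology

namespace Pool.Agent.H364Fill

open Pool.Agent.TH630

variable {n m : ℕ}

section Weights

variable {G : NilLaw n} {ρ : ℝ} {D : Gau G ρ} {R N : ℝ} {ι : Type} [Fintype ι]
  (P : Pou D R N ι)

/-- The Jacobian of the functions `χ (f i)`. -/
noncomputable def dt (x : Fin n → ℝ) (f : Fin n → ι) : ℝ :=
  (Matrix.of fun i j => fderiv ℝ (P.χ (f i)) x (Pi.single j 1)).det

/-- The weight of a tuple at `x`. -/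
noncomputable def wt (x : Fin n → ℝ) (f : Fin (n + 1) → ι) : ℝ :=
  P.χ (f 0) x * dt P x (fun i => f i.succ)

theorem dt_ne_zero {x : Fin n → ℝ} {f : Fin n → ι} (h : dt P x f ≠ 0) (i : Fin n) :
    P.χ (f i) x ≠ 0 := by
  intro h0
  apply h
  rw [dt]
  apply Matrix.det_eq_zero_of_row_eq_zero i
  intro j
  rw [Matrix.of_apply, P.fderiv_eq_zero h0]
  rfl

theorem wt_ne_zero {x : Fin n → ℝ} {f : Fin (n + 1) → ι} (h : wt P x f ≠ 0) (i : Fin (n + 1)) :
    P.χ (f i) x ≠ 0 := by
  rw [wt] at h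
  refine Fin.cases ?_ (fun i => ?_) i
  · exact left_ne_zero_of_mul h
  · exact dt_ne_zero P (right_ne_zero_of_mul h) i

theorem sum_coboundary {x : Fin n → ℝ} (hx : P.Good x) (hR : G.nrm x < R + 2)
    (h : (Fin n → ι) → ℝ) :
    ∑ f : Fin (n + 1) → ι, wt P x f *
        (∑ i : Fin (n + 1), (-1 : ℝ) ^ (i : ℕ) * h (fun j => f (i.succAbove j))) =
      ∑ f : Fin n → ι, h f * dt P x f := by
  classical
  simp only [Finset.mul_sum]
  rw [Finset.sum_comm, Fin.sum_univ_succ]
  have h0 : ∑ f : Fin (n + 1) → ι, wt P x f * ((-1 : ℝ) ^ ((0 : Fin (n + 1)) : ℕ) *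
      h (fun j => f ((0 : Fin (n + 1)).succAbove j))) = ∑ f : Fin n → ι, h f * dt P x f := by
    rw [← (Fin.consEquiv (fun _ : Fin (n + 1) => ι)).sum_comp, Fintype.sum_prod_type,
      Finset.sum_comm]
    refine Finset.sum_congr rfl fun f _ => ?_
    have h1 : ∀ a : ι, wt P x (Fin.consEquiv (fun _ : Fin (n + 1) => ι) (a, f)) *
        ((-1 : ℝ) ^ ((0 : Fin (n + 1)) : ℕ) *
          h (fun j => (Fin.consEquiv (fun _ : Fin (n + 1) => ι) (a, f))
            ((0 : Fin (n + 1)).succAbove j))) = P.χ a x * (h f * dt P x f) := by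
      intro a
      simp only [Fin.consEquiv, Equiv.coe_fn_mk, wt, Fin.cons_zero, Fin.cons_succ,
        Fin.succAbove_zero, Fin.val_zero, pow_zero, one_mul]
      ring
    rw [Finset.sum_congr rfl fun a _ => h1 a, ← Finset.sum_mul, P.sum_one x hR.le, one_mul]
  have h2 : ∀ i : Fin n, ∑ f : Fin (n + 1) → ι, wt P x f * ((-1 : ℝ) ^ ((i.succ : Fin (n + 1)) : ℕ) *
      h (fun j => f ((i.succ : Fin (n + 1)).succAbove j))) = 0 := by
    intro i
    rw [← (Fin.insertNthEquiv (fun _ : Fin (n + 1) => ι) i.succ).sum_comp, Fintype.sum_prod_type,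
      Finset.sum_comm]
    apply Finset.sum_eq_zero
    intro f _
    have hn : ∃ n', n = n' + 1 := ⟨n - 1, by have := i.2; omega⟩
    obtain ⟨n', rfl⟩ := hn
    have h1 : ∀ a : ι, wt P x (Fin.insertNthEquiv (fun _ : Fin (n' + 1 + 1) => ι) i.succ (a, f)) *
        ((-1 : ℝ) ^ ((i.succ : Fin (n' + 1 + 1)) : ℕ) *
          h (fun j => (Fin.insertNthEquiv (fun _ : Fin (n' + 1 + 1) => ι) i.succ (a, f))
            ((i.succ : Fin (n' + 1 + 1)).succAbove j))) =
        (P.χ (f 0) x * ((-1 : ℝ) ^ ((i.succ : Fin (n' + 1 + 1)) : ℕ) * h f)) *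
          dt P x (fun j => (i.succ.insertNth a f : Fin (n' + 1 + 1) → ι) j.succ) := by
      intro a
      simp only [Fin.insertNthEquiv, Equiv.coe_fn_mk, wt, Fin.insertNth_apply_succAbove]
      have h3 : (i.succ.insertNth a f : Fin (n' + 1 + 1) → ι) 0 = f 0 := by
        have := Fin.insertNth_apply_succAbove (α := fun _ => ι) i.succ a f 0
        rwa [Fin.succ_succAbove_zero] at this
      rw [h3]
      ring
    rw [Finset.sum_congr rfl fun a _ => h1 a, ← Finset.mul_sum]
    have h4 : ∑ a : ι, dt P x (fun j => (i.succ.insertNth a f : Fin (n' + 1 + 1) → ι) j.succ) =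
        0 := by
      set M : Matrix (Fin (n' + 1)) (Fin (n' + 1)) ℝ := Matrix.of fun j l =>
        if j = i then 0 else
          fderiv ℝ (P.χ ((i.succ.insertNth (f 0) f : Fin (n' + 1 + 1) → ι) j.succ)) x
            (Pi.single l 1) with hM
      have h5 : ∀ a : ι, dt P x (fun j => (i.succ.insertNth a f : Fin (n' + 1 + 1) → ι) j.succ) =
          (Matrix.detRowAlternating : (Fin (n' + 1) → ℝ) [⋀^Fin (n' + 1)]→ₗ[ℝ] ℝ)
            (Function.update (fun j => M j) i (fun l => fderiv ℝ (P.χ a) x (Pi.single l 1))) := by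
        intro a
        rw [dt]
        show Matrix.det _ = Matrix.det _
        congr 1
        ext j l
        by_cases hj : j = i
        · subst hj
          simp
        · rw [Function.update_of_ne hj, hM]
          simp only [Matrix.of_apply, if_neg hj]
          have hji : j.succ ≠ i.succ := fun h => hj (Fin.succ_injective _ h)
          obtain ⟨y, hy⟩ := Fin.exists_succAbove_eq hji
          rw [← hy, Fin.insertNth_apply_succAbove, Fin.insertNth_apply_succAbove]
      simp only [h5]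
      rw [← AlternatingMap.map_update_sum]
      have h6 : (∑ a : ι, fun l => fderiv ℝ (P.χ a) x (Pi.single l 1)) = (0 : Fin (n' + 1) → ℝ) := by
        funext l
        have := congrArg (fun L => L (Pi.single l 1)) (P.sum_fderiv hx hR)
        simpa using this
      rw [h6]
      exact AlternatingMap.map_update_zero _ _ _
    rw [h4, mul_zero]
  rw [h0, Finset.sum_eq_zero (fun i _ => h2 i), add_zero]

/-- Sums over tuples which are supported on tuples active at `x`. -/
theorem abs_sum_le {k : ℕ} {x : Fin n → ℝ} (F : (Fin k → ι) → ℝ) {M : ℝ} (hM : 0 ≤ M)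
    (h1 : ∀ f, F f ≠ 0 → ∀ i, P.χ (f i) x ≠ 0) (h2 : ∀ f, F f ≠ 0 → |F f| ≤ M) :
    |∑ f, F f| ≤ N ^ k * M := by
  classical
  set A : Finset ι := Finset.univ.filter fun i => P.χ i x ≠ 0 with hA
  have h3 : ∑ f, F f = ∑ f ∈ Fintype.piFinset fun _ : Fin k => A, F f := by
    symm
    apply Finset.sum_subset (Finset.subset_univ _)
    intro f _ hf
    by_contra h
    apply hf
    rw [Fintype.mem_piFinset]
    intro i
    rw [hA, Finset.mem_filter]
    exact ⟨Finset.mem_univ _, h1 f h i⟩
  rw [h3]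
  refine (Finset.abs_sum_le_sum_abs _ _).trans ?_
  have h4 : ∀ f ∈ Fintype.piFinset fun _ : Fin k => A, |F f| ≤ M := by
    intro f _
    by_cases h : F f = 0
    · rw [h, abs_zero]
      exact hM
    · exact h2 f h
  refine (Finset.sum_le_card_nsmul _ _ _ h4).trans ?_
  rw [nsmul_eq_mul, Fintype.card_piFinset, Finset.prod_const, Finset.card_univ, Fintype.card_fin]
  push_cast
  have h5 : (A.card : ℝ) ≤ N := P.card x A fun i hi => (Finset.mem_filter.1 hi).2
  gcongr

end Weights

end Pool.Agent.H364Fill
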