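import Pool.Agent.TH630.Fill.Growth

/-!
# Stratified nilpotent Lie groups in graded exponential coordinates
-/

open scoped ENNReal NNReal Topology

namespace Pool.Agent.H364Fill

open Pool.Agent.TH630

variable {n : ℕ}

/-- The layer `V_i`: the span of the basis vectors of weight `i`. -/
def layer (w : Fin n → ℕ) (i : ℕ) : Submodule ℝ (Fin n → ℝ) where
  carrier := {x | ∀ j, w j ≠ i → x j = 0}
  add_mem' {x y} hx hy j hj := by rw [Pi.add_apply, hx j hj, hy j hj, add_zero]
  zero_mem' _ _ := rfl
  smul_mem' c x hx j hj := by rw [Pi.smul_apply, hx j hj, smul_zero]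

/-- The dilation which multiplies `V_i` by `t ^ i`. -/
def dil (w : Fin n → ℕ) (t : ℝ) (x : Fin n → ℝ) : Fin n → ℝ := fun j => t ^ (w j) * x j

/-- The adjoint action on the tangent space at the identity: the derivative at `t = 0` of
`x (t y) x⁻¹`. -/
noncomputable def Ad (G : NilLaw n) (x y : Fin n → ℝ) : Fin n → ℝ :=
  deriv (fun t : ℝ => G.mul (G.mul x (t • y)) (G.inv x)) 0

/-- The Lie bracket on the tangent space at the identity, which is the derivative at `s = 0` of
the adjoint action `Ad (s x) y`. -/
noncomputable def bracket (G : NilLaw n) (x y : Fin n → ℝ) : Fin n → ℝ :=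
  deriv (fun s : ℝ => Ad G (s • x) y) 0

/-- `G` is a stratified group in graded exponential coordinates: the lines through the identity
are one-parameter subgroups, the basis vectors have positive weights such that the dilations
are automorphisms, and the layers `V_i` satisfy `[V_1, V_i] = V_{i + 1}` for all `i ≥ 1`. -/
structure Stratified (G : NilLaw n) where
  /-- the index of the layer which contains the basis vector -/
  w : Fin n → ℕ
  w_pos : ∀ j, 1 ≤ w j
  exp_add : ∀ (x : Fin n → ℝ) (s t : ℝ), G.mul (s • x) (t • x) = (s + t) • x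
  dil_mul : ∀ t : ℝ, 0 < t → ∀ x y, G.mul (dil w t x) (dil w t y) = dil w t (G.mul x y)
  gen : ∀ i : ℕ, 1 ≤ i →
    Submodule.span ℝ {z | ∃ x ∈ layer w 1, ∃ y ∈ layer w i, bracket G x y = z} = layer w (i + 1)

/-- The homogeneous dimension `∑ i, i * dim V_i`. -/
def Stratified.hdim {G : NilLaw n} (S : Stratified G) : ℕ := ∑ j, S.w j

end Pool.Agent.H364Fill
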